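import Pool.Agent.Q261.CFD.Basic

set_option autoImplicit false

/-!
# Continued fractions: codings by blocks of digits and lower bounds for the Hausdorff dimension
-/

namespace Q261.CFD

open Set Filter Topology MeasureTheory
open scoped ENNReal NNReal

variable {V : Type}

/-- the concatenation of the first blocks -/
def cat (B : V → List ℕ) : (ℕ → V) → ℕ → List ℕ
  | _, 0 => []
  | ω, n + 1 => B (ω 0) ++ cat B (fun i => ω (i + 1)) n

lemma cat_last (B : V → List ℕ) (ω : ℕ → V) (n : ℕ) :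
    cat B ω (n + 1) = cat B ω n ++ B (ω n) := by
  induction n generalizing ω with
  | zero => simp [cat]
  | succ n ih => rw [cat, ih, cat, List.append_assoc]

lemma cat_pos {B : V → List ℕ} (hB : ∀ v, Pos (B v)) (ω : ℕ → V) (n : ℕ) : Pos (cat B ω n) := by
  induction n generalizing ω with
  | zero => intro a ha; simp [cat] at ha
  | succ n ih => exact (hB _).append (ih _)

lemma le_length_cat {B : V → List ℕ} (hB' : ∀ v, B v ≠ []) (ω : ℕ → V) (n : ℕ) :
    n ≤ (cat B ω n).length := by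
  induction n generalizing ω with
  | zero => simp
  | succ n ih =>
    rw [cat, List.length_append]
    have h1 := ih (fun i => ω (i + 1))
    have : 0 < (B (ω 0)).length := List.length_pos_iff.2 (hB' _)
    omega

lemma phi_lip {w : List ℕ} (hw : Pos w) {x y : ℝ} (hx : 0 ≤ x) (hy : 0 ≤ y) :
    |phi w x - phi w y| ≤ |x - y| := by
  rw [phi_sub hw hx hy]
  have h1 := D_le_one hw hx
  have h2 := D_le_one hw hy
  have h3 := D_pos hw hx
  have h4 := D_pos hw hy
  have h5 : D w x * D w y ≤ 1 := by nlinarith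
  nlinarith [abs_nonneg (x - y)]

lemma phi_pos' {w : List ℕ} (hw : Pos w) (h0 : w ≠ []) {x : ℝ} (hx : 0 ≤ x) : 0 < phi w x := by
  cases w with
  | nil => exact absurd rfl h0
  | cons a w =>
    rw [phi_cons]
    have h1 : (1 : ℝ) ≤ a := by exact_mod_cast hw.head
    have := phi_nonneg (w := w) hx
    positivity

lemma phi_lt_one' {w : List ℕ} (hw : Pos w) (h0 : w ≠ []) {x : ℝ} (hx : 0 < x) :
    phi w x < 1 := by
  cases w with
  | nil => exact absurd rfl h0
  | cons a w =>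
    rw [phi_cons]
    have h1 : (1 : ℝ) ≤ a := by exact_mod_cast hw.head
    have h2 : 0 < phi w x := by
      cases w with
      | nil => exact hx
      | cons b w => exact phi_pos' hw.tail (by simp) hx.le
    exact inv_lt_one_of_one_lt₀ (by linarith)

lemma measurable_phi (w : List ℕ) : Measurable (phi w) := by
  induction w with
  | nil => exact measurable_id
  | cons a w ih => exact (ih.const_add _).inv

/-- the limit of the compositions -/
theorem exists_code [Countable V] [MeasurableSpace V] [MeasurableSingletonClass V]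
    (B : V → List ℕ) (hB : ∀ v, Pos (B v)) (hB' : ∀ v, B v ≠ []) :
    ∃ π : (ℕ → V) → ℝ, Measurable π ∧ (∀ ω, π ω ∈ Ioo (0 : ℝ) 1) ∧
      ∀ ω, π ω = phi (B (ω 0)) (π fun i => ω (i + 1)) := by
  set xs : ℕ → (ℕ → V) → ℝ := fun n ω => phi (cat B ω n) 0 with hxs
  have hmem : ∀ n ω, xs n ω ∈ Icc (0 : ℝ) 1 := fun n ω =>
    phi_mem (cat_pos hB ω n) ⟨le_rfl, zero_le_one⟩
  have hcau : ∀ ω, CauchySeq fun n => xs n ω := by
    intro ω
    apply cauchySeq_of_le_geometric (1 / 2) 2 (by norm_num)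
    intro n
    rw [Real.dist_eq, hxs]
    simp only
    rw [cat_last, phi_append]
    refine (phi_dist_le (cat_pos hB ω n) ⟨le_rfl, zero_le_one⟩
      (phi_mem (hB _) ⟨le_rfl, zero_le_one⟩)).trans ?_
    have := pow_le_pow_of_le_one (a := (1 / 2 : ℝ)) (by norm_num) (by norm_num)
      (le_length_cat hB' ω n)
    linarith
  choose π hπ using fun ω => cauchySeq_tendsto_of_complete (hcau ω)
  have hπI : ∀ ω, π ω ∈ Icc (0 : ℝ) 1 := fun ω =>
    isClosed_Icc.mem_of_tendsto (hπ ω) (Eventually.of_forall fun n => hmem n ω)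
  have hrec : ∀ ω, π ω = phi (B (ω 0)) (π fun i => ω (i + 1)) := by
    intro ω
    have h1 : Tendsto (fun n => xs (n + 1) ω) atTop (𝓝 (π ω)) :=
      (tendsto_add_atTop_iff_nat 1).2 (hπ ω)
    refine tendsto_nhds_unique h1 ?_
    have h2 := hπ fun i => ω (i + 1)
    rw [Metric.tendsto_atTop] at h2 ⊢
    intro e he
    obtain ⟨N, hN⟩ := h2 e he
    refine ⟨N, fun n hn => ?_⟩
    have h3 := hN n hn
    rw [Real.dist_eq] at h3 ⊢
    refine lt_of_le_of_lt ?_ h3
    have h4 : xs (n + 1) ω = phi (B (ω 0)) (xs n fun i => ω (i + 1)) := by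
      simp only [hxs, cat, phi_append]
    rw [h4]
    exact phi_lip (hB _) (hmem _ _).1 (hπI _).1
  have hmeas : ∀ n, Measurable (xs n) := by
    intro n
    induction n with
    | zero =>
      have : xs 0 = fun _ => (0 : ℝ) := by funext ω; simp [hxs, cat]
      rw [this]; exact measurable_const
    | succ n ih =>
      have h4 : xs (n + 1) = fun ω => (fun p : V × ℝ => phi (B p.1) p.2)
          (ω 0, xs n fun i => ω (i + 1)) := by
        funext ω
        simp only [hxs, cat, phi_append]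
      rw [h4]
      have h5 : Measurable fun p : V × ℝ => phi (B p.1) p.2 :=
        measurable_from_prod_countable_right fun v => measurable_phi (B v)
      refine h5.comp (Measurable.prodMk (measurable_pi_apply 0) (ih.comp ?_))
      exact measurable_pi_lambda _ fun i => measurable_pi_apply (i + 1)
  refine ⟨π, measurable_of_tendsto_metrizable hmeas (tendsto_pi_nhds.2 hπ), fun ω => ?_, hrec⟩
  have h6 : 0 < π fun i => ω (i + 1) := by
    rw [hrec]
    exact phi_pos' (hB _) (hB' _) (hπI _).1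
  rw [hrec]
  exact ⟨phi_pos' (hB _) (hB' _) h6.le, phi_lt_one' (hB _) (hB' _) h6⟩

/-- sequences that agree on the first `n` blocks and differ in the next one -/
lemma code_dist {B : V → List ℕ} (hB : ∀ v, Pos (B v)) {π : (ℕ → V) → ℝ}
    (hπ : ∀ ω, π ω ∈ Ioo (0 : ℝ) 1) (hrec : ∀ ω, π ω = phi (B (ω 0)) (π fun i => ω (i + 1)))
    {ε : V → ℝ} (hε : ∀ v, 0 < ε v) (hD : ∀ v, ∀ x ∈ Icc (0 : ℝ) 1, ε v ≤ D (B v) x)
    {c : ℝ} (hc : 0 < c) (hsep : ∀ ω ω' : ℕ → V, ω 0 ≠ ω' 0 → c ≤ |π ω - π ω'|) (n : ℕ)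
    (ω ω' : ℕ → V) (h : ∀ i < n, ω i = ω' i) (h' : ω n ≠ ω' n) :
    c * ∏ i ∈ Finset.range n, ε (ω i) ^ 2 ≤ |π ω - π ω'| := by
  induction n generalizing ω ω' with
  | zero => simpa using hsep ω ω' h'
  | succ n ih =>
    have h1 := ih (fun i => ω (i + 1)) (fun i => ω' (i + 1)) (fun i hi => h (i + 1) (by omega)) h'
    have h0 : ω 0 = ω' 0 := h 0 (by omega)
    have m1 := hπ fun i => ω (i + 1)
    have m2 := hπ fun i => ω' (i + 1)
    rw [hrec ω, hrec ω', ← h0, phi_sub (hB _) m1.1.le m2.1.le, Finset.prod_range_succ']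
    have d1 := hD (ω 0) _ (Ioo_subset_Icc_self m1)
    have d2 := hD (ω 0) _ (Ioo_subset_Icc_self m2)
    have h2 : ε (ω 0) ^ 2 ≤ D (B (ω 0)) (π fun i => ω (i + 1)) *
        D (B (ω 0)) (π fun i => ω' (i + 1)) := by
      rw [sq]
      exact mul_le_mul d1 d2 (hε _).le ((hε _).le.trans d1)
    have h3 : 0 ≤ c * ∏ i ∈ Finset.range n, ε (ω (i + 1)) ^ 2 := by positivity
    calc c * ((∏ i ∈ Finset.range n, ε (ω (i + 1)) ^ 2) * ε (ω 0) ^ 2)
        = (c * ∏ i ∈ Finset.range n, ε (ω (i + 1)) ^ 2) * ε (ω 0) ^ 2 := by ring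
      _ ≤ _ := mul_le_mul h1 h2 (by positivity) (abs_nonneg _)

/-- **lower bound for the dimension** -/
theorem le_dimH_of_blocks [Fintype V] [Nontrivial V] {B : V → List ℕ} (hB : ∀ v, Pos (B v))
    (hB' : ∀ v, B v ≠ []) {ε : V → ℝ} (hε : ∀ v, 0 < ε v)
    (hD : ∀ v, ∀ x ∈ Icc (0 : ℝ) 1, ε v ≤ D (B v) x) {s : ℝ≥0} (hs : 0 < s)
    (hsum : 1 ≤ ∑ v, ε v ^ (2 * (s : ℝ))) (S : Set ℝ)
    (hS : ∀ π : (ℕ → V) → ℝ, (∀ ω, π ω ∈ Ioo (0 : ℝ) 1) →
      (∀ ω, π ω = phi (B (ω 0)) (π fun i => ω (i + 1))) → (∀ ω, π ω ∈ S) ∧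
      ∃ c > 0, ∀ ω ω' : ℕ → V, ω 0 ≠ ω' 0 → c ≤ |π ω - π ω'|) : (s : ℝ≥0∞) ≤ dimH S := by
  classical
  have hs' : (0 : ℝ) < s := by exact_mod_cast hs
  let _ : MeasurableSpace V := ⊤
  have : MeasurableSingletonClass V := ⟨fun _ => trivial⟩
  obtain ⟨π, hπm, hπ, hrec⟩ := exists_code B hB hB'
  obtain ⟨hS, c, hc, hsep⟩ := hS π hπ hrec
  set Z : ℝ := ∑ v, ε v ^ (2 * (s : ℝ)) with hZ
  have hZ0 : 0 < Z := by linarith
  set p : V → ℝ := fun v => ε v ^ (2 * (s : ℝ)) / Z with hp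
  have hp0 : ∀ v, 0 < p v := fun v => div_pos (Real.rpow_pos_of_pos (hε v) _) hZ0
  have hp1 : ∑ v, p v = 1 := by
    rw [hp]
    simp only
    rw [← Finset.sum_div, ← hZ, div_self hZ0.ne']
  have hple : ∀ v, p v ≤ ε v ^ (2 * (s : ℝ)) := fun v =>
    div_le_self (Real.rpow_nonneg (hε v).le _) hsum
  -- the measure
  set μ0 : Measure V := ∑ v, ENNReal.ofReal (p v) • Measure.dirac v with hμ0
  have hμ0s : ∀ v, μ0 {v} = ENNReal.ofReal (p v) := by
    intro v
    rw [hμ0, Measure.finsetSum_apply]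
    rw [Finset.sum_eq_single v]
    · simp
    · intro w _ hw
      simp [hw]
    · simp
  have : IsProbabilityMeasure μ0 := by
    refine ⟨?_⟩
    rw [hμ0, Measure.finsetSum_apply]
    simp only [Measure.smul_apply, measure_univ, smul_eq_mul, mul_one]
    rw [← ENNReal.ofReal_sum_of_nonneg fun v _ => (hp0 v).le, hp1, ENNReal.ofReal_one]
  set P : Measure (ℕ → V) := Measure.infinitePi fun _ => μ0 with hP
  have hcyl : ∀ (ω0 : ℕ → V) (n : ℕ), P {ω | ∀ i < n, ω i = ω0 i} =
      ENNReal.ofReal (∏ i ∈ Finset.range n, p (ω0 i)) := by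
    intro ω0 n
    have h1 : {ω : ℕ → V | ∀ i < n, ω i = ω0 i} = Set.pi (Finset.range n : Set ℕ)
        fun i => {ω0 i} := by
      ext ω
      simp [Set.mem_pi]
    rw [h1, hP, Measure.infinitePi_pi _ (fun i _ => measurableSet_singleton _)]
    rw [ENNReal.ofReal_prod_of_nonneg fun i _ => (hp0 _).le]
    exact Finset.prod_congr rfl fun i _ => hμ0s _
  obtain ⟨v0, hv0⟩ := Finite.exists_max p
  have hv1 : p v0 < 1 := by
    obtain ⟨w, hw⟩ := exists_ne v0
    have h1 : p v0 + p w ≤ ∑ v, p v := by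
      rw [← Finset.sum_pair hw.symm]
      exact Finset.sum_le_sum_of_subset_of_nonneg (Finset.subset_univ _)
        fun v _ _ => (hp0 v).le
    linarith [hp0 w]
  -- the main estimate
  have key : ∀ U : Set ℝ, P (π ⁻¹' U) ≤ (ENNReal.ofReal c)⁻¹ ^ (s : ℝ) * Metric.ediam U ^ (s : ℝ) := by
    intro U
    by_cases hE : ∃ n, ∃ ω ∈ π ⁻¹' U, ∃ ω' ∈ π ⁻¹' U, ω n ≠ ω' n
    · obtain ⟨ω, hω, ω', hω', hne⟩ := Nat.find_spec hE
      set n := Nat.find hE with hn
      have hmin : ∀ i < n, ∀ a ∈ π ⁻¹' U, ∀ b ∈ π ⁻¹' U, a i = b i := by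
        intro i hi a ha b hb
        by_contra hab
        exact Nat.find_min hE hi ⟨a, ha, b, hb, hab⟩
      have h1 : π ⁻¹' U ⊆ {a | ∀ i < n, a i = ω i} := fun a ha i hi => hmin i hi a ha ω hω
      have h2 := code_dist hB hπ hrec hε hD hc hsep n ω ω' (fun i hi => hmin i hi ω hω ω' hω') hne
      have h3 : ENNReal.ofReal (c * ∏ i ∈ Finset.range n, ε (ω i) ^ 2) ≤ Metric.ediam U := by
        have h4 : edist (π ω) (π ω') ≤ Metric.ediam U := Metric.edist_le_ediam_of_mem hω hω'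
        refine le_trans ?_ h4
        rw [edist_dist, Real.dist_eq]
        exact ENNReal.ofReal_le_ofReal h2
      have hpr : 0 < ∏ i ∈ Finset.range n, ε (ω i) ^ 2 := Finset.prod_pos fun i _ => pow_pos (hε _) 2
      calc P (π ⁻¹' U) ≤ P {a | ∀ i < n, a i = ω i} := measure_mono h1
        _ = ENNReal.ofReal (∏ i ∈ Finset.range n, p (ω i)) := hcyl ω n
        _ ≤ ENNReal.ofReal ((∏ i ∈ Finset.range n, ε (ω i) ^ 2) ^ (s : ℝ)) := by
            apply ENNReal.ofReal_le_ofReal
            rw [← Real.finsetProd_rpow _ _ fun i _ => by positivity]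
            apply Finset.prod_le_prod fun i _ => (hp0 _).le
            intro i _
            refine (hple _).trans (le_of_eq ?_)
            rw [← Real.rpow_natCast, ← Real.rpow_mul (hε _).le]
            norm_num
        _ = (ENNReal.ofReal c)⁻¹ ^ (s : ℝ) *
            ENNReal.ofReal (c * ∏ i ∈ Finset.range n, ε (ω i) ^ 2) ^ (s : ℝ) := by
            rw [← ENNReal.mul_rpow_of_nonneg _ _ hs'.le, ENNReal.ofReal_mul hc.le, ← mul_assoc,
              ENNReal.inv_mul_cancel (ENNReal.ofReal_pos.2 hc).ne' ENNReal.ofReal_ne_top, one_mul,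
              ENNReal.ofReal_rpow_of_nonneg hpr.le hs'.le]
        _ ≤ _ := mul_le_mul_right (ENNReal.rpow_le_rpow h3 hs'.le) _
    · push Not at hE
      rcases (π ⁻¹' U).eq_empty_or_nonempty with h0 | ⟨ω, hω⟩
      · rw [h0, measure_empty]; exact zero_le
      · have h1 : ∀ n, P (π ⁻¹' U) ≤ ENNReal.ofReal (p v0) ^ n := by
          intro n
          have h2 : π ⁻¹' U ⊆ {a | ∀ i < n, a i = ω i} := fun a ha i _ => hE i a ha ω hω
          refine (measure_mono h2).trans ?_
          rw [hcyl, ← ENNReal.ofReal_pow (hp0 _).le]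
          apply ENNReal.ofReal_le_ofReal
          calc ∏ i ∈ Finset.range n, p (ω i) ≤ ∏ _i ∈ Finset.range n, p v0 :=
                Finset.prod_le_prod (fun i _ => (hp0 _).le) fun i _ => hv0 _
            _ = _ := by simp
        have h3 : Tendsto (fun n : ℕ => ENNReal.ofReal (p v0) ^ n) atTop (𝓝 0) :=
          ENNReal.tendsto_pow_atTop_nhds_zero_of_lt_one (by
            rw [← ENNReal.ofReal_one]
            exact (ENNReal.ofReal_lt_ofReal_iff zero_lt_one).2 hv1)
        have h4 : P (π ⁻¹' U) ≤ 0 := ge_of_tendsto' h3 h1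
        exact h4.trans zero_le
  -- comparison with the Hausdorff measure
  set κ : ℝ≥0∞ := ENNReal.ofReal c ^ (s : ℝ) with hκ
  have hκ0 : κ ≠ 0 := (ENNReal.rpow_pos (ENNReal.ofReal_pos.2 hc) ENNReal.ofReal_ne_top).ne'
  have hκt : κ ≠ ∞ := ENNReal.rpow_ne_top_of_nonneg hs'.le ENNReal.ofReal_ne_top
  have h1 : κ • P.map π ≤ μH[(s : ℝ)] := by
    apply Measure.le_hausdorffMeasure _ _ 1 one_pos
    intro U _
    have h2 : P.map π U ≤ P.map π (closure U) := measure_mono subset_closure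
    rw [Measure.map_apply hπm isClosed_closure.measurableSet] at h2
    have h3 := key (closure U)
    rw [Metric.ediam_closure] at h3
    rw [Measure.smul_apply, smul_eq_mul]
    calc κ * P.map π U ≤ κ * ((ENNReal.ofReal c)⁻¹ ^ (s : ℝ) * Metric.ediam U ^ (s : ℝ)) :=
          mul_le_mul_right (h2.trans h3) _
      _ = Metric.ediam U ^ (s : ℝ) := by
          rw [← mul_assoc, hκ, ← ENNReal.mul_rpow_of_nonneg _ _ hs'.le,
            ENNReal.mul_inv_cancel (ENNReal.ofReal_pos.2 hc).ne' ENNReal.ofReal_ne_top,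
            ENNReal.one_rpow, one_mul]
  apply le_dimH_of_hausdorffMeasure_ne_zero
  intro h0
  have h2 : κ ≤ μH[(s : ℝ)] S := by
    refine le_trans ?_ (h1 S)
    rw [Measure.smul_apply, smul_eq_mul]
    have h3 : (1 : ℝ≥0∞) ≤ P.map π S := by
      refine le_trans ?_ (Measure.le_map_apply hπm.aemeasurable S)
      have : π ⁻¹' S = univ := eq_univ_of_forall fun ω => hS ω
      rw [this, measure_univ]
    calc κ = κ * 1 := (mul_one _).symm
      _ ≤ _ := mul_le_mul_right h3 _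
  have h3 : μH[(s : ℝ)] S = 0 := h0
  rw [h3] at h2
  exact hκ0 (le_antisymm h2 zero_le)

end Q261.CFD
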