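import Pool.Agent.Q261.CFD.OnesBlocks

set_option autoImplicit false

/-!
# Partition functions
-/

namespace Q261.CFD

open Set Filter Topology MeasureTheory
open scoped ENNReal NNReal

/-! ### the affine form of `1 / D` -/

lemma D_form {w : List ℕ} (hw : Pos w) : ∃ p p' q q' : ℝ, 0 ≤ p ∧ 0 ≤ p' ∧ 0 < q ∧ 0 ≤ q' ∧
    q' ≤ q ∧ (w ≠ [] → p' ≤ p) ∧
    ∀ x, 0 ≤ x → phi w x = (p + p' * x) / (q + q' * x) ∧ D w x = (q + q' * x)⁻¹ := by
  induction w with
  | nil => exact ⟨0, 1, 1, 0, le_rfl, zero_le_one, one_pos, le_rfl, zero_le_one,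
      fun h => absurd rfl h, fun x hx => by simp⟩
  | cons a w ih =>
    obtain ⟨p, p', q, q', h1, h2, h3, h4, h5, h6, h7⟩ := ih hw.tail
    have ha : (1 : ℝ) ≤ a := by exact_mod_cast hw.head
    refine ⟨q, q', a * q + p, a * q' + p', h3.le, h4, by positivity, by positivity, ?_,
      fun _ => h5, fun x hx => ?_⟩
    · rcases eq_or_ne w [] with rfl | hne
      · have e0 := h7 0 le_rfl
        have e1 := h7 1 zero_le_one
        simp only [phi_nil, D_nil, mul_zero, add_zero, mul_one] at e0 e1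
        have q1 : q = 1 := by
          have := e0.2
          rw [eq_comm, inv_eq_one] at this
          exact this
        have q2 : q' = 0 := by
          have := e1.2
          rw [eq_comm, inv_eq_one] at this
          linarith
        subst q1 q2
        have p1 : p = 0 := by have := e0.1; rw [div_one] at this; exact this.symm
        have p2 : p' = 1 := by
          have := e1.1
          rw [add_zero, div_one, p1, zero_add] at this
          exact this.symm
        rw [p1, p2]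
        linarith
      · have := h6 hne
        nlinarith
    · obtain ⟨e1, e2⟩ := h7 x hx
      have h8 : 0 < q + q' * x := by positivity
      rw [phi_cons, D_cons, e1, e2]
      have h9 : (a : ℝ) + (p + p' * x) / (q + q' * x) =
          (a * q + p + (a * q' + p') * x) / (q + q' * x) := by
        field_simp
        ring
      have h10 : 0 < (a : ℝ) * q + p + (a * q' + p') * x := by positivity
      rw [h9]
      constructor
      · rw [inv_div]
      · rw [inv_div]
        field_simp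

lemma D_le_zero {w : List ℕ} (hw : Pos w) {x : ℝ} (hx : 0 ≤ x) : D w x ≤ D w 0 := by
  obtain ⟨p, p', q, q', -, -, h3, h4, -, -, h7⟩ := D_form hw
  rw [(h7 x hx).2, (h7 0 le_rfl).2]
  apply inv_anti₀ (by linarith)
  nlinarith

lemma D_ge_half {w : List ℕ} (hw : Pos w) {x : ℝ} (hx : x ∈ Icc (0 : ℝ) 1) :
    D w 0 / 2 ≤ D w x := by
  obtain ⟨p, p', q, q', -, -, h3, h4, h5, -, h7⟩ := D_form hw
  rw [(h7 x hx.1).2, (h7 0 le_rfl).2, mul_zero, add_zero]
  have : q⁻¹ / 2 = (2 * q)⁻¹ := by field_simp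
  rw [this]
  apply inv_anti₀ (by have := hx.1; positivity)
  nlinarith [hx.1, hx.2]

lemma D_app_le {u w : List ℕ} (hu : Pos u) (hw : Pos w) : D (u ++ w) 0 ≤ D u 0 * D w 0 := by
  rw [D_append]
  exact mul_le_mul_of_nonneg_right (D_le_zero hu (phi_nonneg le_rfl)) (D_pos hw le_rfl).le

lemma D_app_ge {u w : List ℕ} (hu : Pos u) (hw : Pos w) : D u 0 / 2 * D w 0 ≤ D (u ++ w) 0 := by
  rw [D_append]
  exact mul_le_mul_of_nonneg_right (D_ge_half hu (phi_mem hw ⟨le_rfl, zero_le_one⟩))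
    (D_pos hw le_rfl).le

lemma pos_single {b : ℕ} (hb : 1 ≤ b) : Pos [b] := fun c hc => by
  rw [List.mem_singleton.1 hc]; exact hb

/-- replacing the digit `a` by a larger one -/
lemma D_swap {u v : List ℕ} (hu : Pos u) (hv : Pos v) {a b : ℕ} (ha : 1 ≤ a) (hab : a ≤ b) :
    D (u ++ [b] ++ v) 0 ≤ (((a : ℝ) + 2) / b) * D (u ++ [a] ++ v) 0 := by
  obtain ⟨p, p', q, q', -, -, h3, h4, h5, -, h7⟩ := D_form hu
  have ha' : (1 : ℝ) ≤ a := by exact_mod_cast ha
  have hab' : (a : ℝ) ≤ b := by exact_mod_cast hab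
  have hz := phi_mem hv (x := 0) ⟨le_rfl, zero_le_one⟩
  set z := phi v 0 with hz'
  have e : ∀ c : ℝ, 1 ≤ c → 0 < q * (c + z) + q' := fun c hc => by
    have := hz.1
    positivity
  have key : ∀ c : ℕ, 1 ≤ c → D (u ++ [c] ++ v) 0 = (q * (c + z) + q')⁻¹ * D v 0 := by
    intro c hc
    have hc' : (1 : ℝ) ≤ c := by exact_mod_cast hc
    rw [D_append, D_append, ← hz', D_single, phi_cons, phi_nil, (h7 _ (by
      have := hz.1
      positivity)).2]
    congr 1
    have : (c : ℝ) + z ≠ 0 := by have := hz.1; positivity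
    have := (e c hc').ne'
    field_simp
  rw [key a ha, key b (ha.trans hab), ← mul_assoc]
  refine mul_le_mul_of_nonneg_right ?_ (D_pos hv le_rfl).le
  have ea := e a ha'
  have eb := e b (ha'.trans hab')
  have hb0 : (0 : ℝ) < b := by linarith
  rw [← div_eq_mul_inv, div_div, inv_eq_one_div, div_le_div_iff₀ eb (by positivity)]
  have h8 : q * (a + z) + q' ≤ q * (a + 2) := by nlinarith [hz.2]
  have h9 : q * (b : ℝ) ≤ q * (b + z) + q' := by nlinarith [hz.1]
  calc 1 * ((b : ℝ) * (q * (a + z) + q')) ≤ b * (q * (a + 2)) := by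
        rw [one_mul]; exact mul_le_mul_of_nonneg_left h8 hb0.le
    _ = (a + 2) * (q * b) := by ring
    _ ≤ _ := mul_le_mul_of_nonneg_left h9 (by linarith)

/-! ### the weighted partition function -/

/-- the sum of `D (u ++ w) 0 ^ (2 s)` over the words `w` of length `k` in the digits of `A` and
the digit `a`, with weight `ρ` for each occurrence of the digit `a` -/
noncomputable def Y (A : Finset ℕ) (a : ℕ) (ρ s : ℝ) : ℕ → List ℕ → ℝ
  | 0, u => D u 0 ^ (2 * s)
  | k + 1, u => ∑ b ∈ A, Y A a ρ s k (u ++ [b]) + ρ * Y A a ρ s k (u ++ [a])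

variable {A : Finset ℕ} {a : ℕ}

lemma Y_zero (ρ s : ℝ) (u : List ℕ) : Y A a ρ s 0 u = D u 0 ^ (2 * s) := rfl

lemma Y_succ (ρ s : ℝ) (k : ℕ) (u : List ℕ) : Y A a ρ s (k + 1) u =
    ∑ b ∈ A, Y A a ρ s k (u ++ [b]) + ρ * Y A a ρ s k (u ++ [a]) := rfl

lemma Y_nonneg (hA : ∀ b ∈ A, 1 ≤ b) (ha : 1 ≤ a) {ρ s : ℝ} (hρ : 0 ≤ ρ) (k : ℕ) {u : List ℕ}
    (hu : Pos u) : 0 ≤ Y A a ρ s k u := by
  induction k generalizing u with
  | zero => exact Real.rpow_nonneg (D_pos hu le_rfl).le _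
  | succ k ih =>
    rw [Y_succ]
    exact add_nonneg (Finset.sum_nonneg fun b hb => ih (hu.append (pos_single (hA b hb))))
      (mul_nonneg hρ (ih (hu.append (pos_single ha))))

lemma Y_mono (hA : ∀ b ∈ A, 1 ≤ b) (ha : 1 ≤ a) {ρ ρ' s : ℝ} (hρ : 0 ≤ ρ) (h : ρ ≤ ρ') (k : ℕ)
    {u : List ℕ} (hu : Pos u) : Y A a ρ s k u ≤ Y A a ρ' s k u := by
  induction k generalizing u with
  | zero => exact le_rfl
  | succ k ih =>
    rw [Y_succ, Y_succ]
    refine add_le_add (Finset.sum_le_sum fun b hb => ih (hu.append (pos_single (hA b hb)))) ?_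
    exact mul_le_mul h (ih (hu.append (pos_single ha)))
      (Y_nonneg hA ha hρ k (hu.append (pos_single ha))) (hρ.trans h)

lemma Y_app_le (hA : ∀ b ∈ A, 1 ≤ b) (ha : 1 ≤ a) {ρ s : ℝ} (hρ : 0 ≤ ρ) (hs : 0 ≤ s) (k : ℕ)
    {u w : List ℕ} (hu : Pos u) (hw : Pos w) :
    Y A a ρ s k (u ++ w) ≤ D u 0 ^ (2 * s) * Y A a ρ s k w := by
  induction k generalizing w with
  | zero =>
    rw [Y_zero, Y_zero, ← Real.mul_rpow (D_pos hu le_rfl).le (D_pos hw le_rfl).le]
    exact Real.rpow_le_rpow (D_pos (hu.append hw) le_rfl).le (D_app_le hu hw) (by positivity)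
  | succ k ih =>
    rw [Y_succ, Y_succ, mul_add, Finset.mul_sum]
    refine add_le_add (Finset.sum_le_sum fun b hb => ?_) ?_
    · rw [List.append_assoc]
      exact ih (hw.append (pos_single (hA b hb)))
    · rw [List.append_assoc, mul_left_comm]
      exact mul_le_mul_of_nonneg_left (ih (hw.append (pos_single ha))) hρ

lemma Y_app_ge (hA : ∀ b ∈ A, 1 ≤ b) (ha : 1 ≤ a) {ρ s : ℝ} (hρ : 0 ≤ ρ) (hs : 0 ≤ s) (k : ℕ)
    {u w : List ℕ} (hu : Pos u) (hw : Pos w) :
    (D u 0 / 2) ^ (2 * s) * Y A a ρ s k w ≤ Y A a ρ s k (u ++ w) := by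
  induction k generalizing w with
  | zero =>
    have h1 := D_pos hu (x := 0) le_rfl
    have h2 := D_pos hw (x := 0) le_rfl
    rw [Y_zero, Y_zero, ← Real.mul_rpow (by positivity) h2.le]
    exact Real.rpow_le_rpow (by positivity) (D_app_ge hu hw) (by positivity)
  | succ k ih =>
    rw [Y_succ, Y_succ, mul_add, Finset.mul_sum]
    refine add_le_add (Finset.sum_le_sum fun b hb => ?_) ?_
    · rw [List.append_assoc]
      exact ih (hw.append (pos_single (hA b hb)))
    · rw [List.append_assoc, mul_left_comm]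
      exact mul_le_mul_of_nonneg_left (ih (hw.append (pos_single ha))) hρ

lemma Y_sub (hA : ∀ b ∈ A, 1 ≤ b) (ha : 1 ≤ a) {ρ s : ℝ} (hρ : 0 ≤ ρ) (hs : 0 ≤ s) (k l : ℕ)
    {u : List ℕ} (hu : Pos u) : Y A a ρ s (k + l) u ≤ Y A a ρ s k u * Y A a ρ s l [] := by
  induction k generalizing u with
  | zero =>
    rw [Nat.zero_add, Y_zero]
    have := Y_app_le hA ha hρ hs l hu (w := []) (fun b hb => by simp at hb)
    rwa [List.append_nil] at this
  | succ k ih =>
    rw [show k + 1 + l = (k + l) + 1 by ring, Y_succ, Y_succ, add_mul, Finset.sum_mul, mul_assoc]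
    exact add_le_add (Finset.sum_le_sum fun b hb => ih (hu.append (pos_single (hA b hb))))
      (mul_le_mul_of_nonneg_left (ih (hu.append (pos_single ha))) hρ)

lemma Y_pow (hA : ∀ b ∈ A, 1 ≤ b) (ha : 1 ≤ a) {ρ s : ℝ} (hρ : 0 ≤ ρ) (hs : 0 ≤ s) (k m : ℕ) :
    Y A a ρ s (k * m) [] ≤ Y A a ρ s k [] ^ m := by
  have hn : Pos ([] : List ℕ) := fun b hb => by simp at hb
  induction m with
  | zero => simp [Y_zero]
  | succ m ih =>
    rw [Nat.mul_succ, pow_succ]
    exact (Y_sub hA ha hρ hs _ _ hn).trans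
      (mul_le_mul_of_nonneg_right ih (Y_nonneg hA ha hρ k hn))

/-- replacing the digit `a` by a larger one -/
lemma Y_swap (hA : ∀ b ∈ A, 1 ≤ b) (ha : 1 ≤ a) {ρ s : ℝ} (hρ : 0 ≤ ρ) (hs : 0 ≤ s) (k : ℕ)
    {u v : List ℕ} (hu : Pos u) (hv : Pos v) {b : ℕ} (hab : a ≤ b) :
    Y A a ρ s k (u ++ [b] ++ v) ≤ (((a : ℝ) + 2) / b) ^ (2 * s) * Y A a ρ s k (u ++ [a] ++ v) := by
  induction k generalizing v with
  | zero =>
    have h1 := D_pos ((hu.append (pos_single ha)).append hv) (x := 0) le_rfl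
    have h2 := D_pos ((hu.append (pos_single (ha.trans hab))).append hv) (x := 0) le_rfl
    rw [Y_zero, Y_zero, ← Real.mul_rpow (by positivity) h1.le]
    exact Real.rpow_le_rpow h2.le (D_swap hu hv ha hab) (by positivity)
  | succ k ih =>
    rw [Y_succ, Y_succ, mul_add, Finset.mul_sum]
    refine add_le_add (Finset.sum_le_sum fun c hc => ?_) ?_
    · have := ih (hv.append (pos_single (hA c hc)))
      simpa only [List.append_assoc] using this
    · rw [mul_left_comm]
      have := ih (hv.append (pos_single ha))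
      simp only [List.append_assoc] at this ⊢
      exact mul_le_mul_of_nonneg_left this hρ

lemma Y_split (hA : ∀ b ∈ A, 1 ≤ b) (ha : 1 ≤ a) {ρ₀ ρ s : ℝ} (h0 : 0 < ρ₀) (h1 : ρ₀ ≤ ρ)
    (h2 : ρ ≤ 1) (M k : ℕ) {u : List ℕ} (hu : Pos u) :
    Y A a ρ s k u ≤ ρ ^ M * Y A a 1 s k u + (ρ / ρ₀) ^ M * Y A a ρ₀ s k u := by
  have hρ : 0 < ρ := h0.trans_le h1
  have h3 : 1 ≤ ρ / ρ₀ := (one_le_div h0).2 h1
  induction k generalizing M u with
  | zero =>
    rw [Y_zero, Y_zero, Y_zero]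
    have h4 : 0 ≤ D u 0 ^ (2 * s) := Real.rpow_nonneg (D_pos hu le_rfl).le _
    have h5 : 1 ≤ (ρ / ρ₀) ^ M := one_le_pow₀ h3
    have h6 : 0 ≤ ρ ^ M := by positivity
    nlinarith
  | succ k ih =>
    rcases M with _ | M
    · rw [pow_zero, pow_zero, one_mul, one_mul]
      have h4 := Y_mono (s := s) hA ha hρ.le h2 (k + 1) hu
      have h5 := Y_nonneg (s := s) hA ha h0.le (k + 1) hu
      linarith
    · have h4 : ∀ b ∈ A, Y A a ρ s k (u ++ [b]) ≤ ρ ^ (M + 1) * Y A a 1 s k (u ++ [b]) +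
          (ρ / ρ₀) ^ (M + 1) * Y A a ρ₀ s k (u ++ [b]) := fun b hb =>
        ih (M + 1) (hu.append (pos_single (hA b hb)))
      have h5 := ih M (hu.append (pos_single ha))
      have h6 := Finset.sum_le_sum h4
      rw [Finset.sum_add_distrib, ← Finset.mul_sum, ← Finset.mul_sum] at h6
      rw [Y_succ, Y_succ, Y_succ]
      have h7 : ρ * Y A a ρ s k (u ++ [a]) ≤ ρ ^ (M + 1) * Y A a 1 s k (u ++ [a]) +
          (ρ / ρ₀) ^ (M + 1) * (ρ₀ * Y A a ρ₀ s k (u ++ [a])) := by
        calc ρ * Y A a ρ s k (u ++ [a]) ≤ ρ * (ρ ^ M * Y A a 1 s k (u ++ [a]) +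
              (ρ / ρ₀) ^ M * Y A a ρ₀ s k (u ++ [a])) := mul_le_mul_of_nonneg_left h5 hρ.le
          _ = _ := by
            rw [pow_succ, pow_succ]
            field_simp
      linarith

/-- continuity of the partition function -/
lemma Y_cont (hA : ∀ b ∈ A, 1 ≤ b) (ha : 1 ≤ a) (k : ℕ) {u : List ℕ} (hu : Pos u) :
    Continuous fun p : ℝ × ℝ => Y A a p.1 p.2 k u := by
  induction k generalizing u with
  | zero =>
    simp only [Y_zero]
    have h := D_pos hu (x := 0) le_rfl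
    exact Continuous.rpow continuous_const (by fun_prop) fun _ => Or.inl h.ne'
  | succ k ih =>
    simp only [Y_succ]
    refine Continuous.add (continuous_finsetSum _ fun b hb => ?_) (continuous_fst.mul ?_)
    · exact ih (hu.append (pos_single (hA b hb)))
    · exact ih (hu.append (pos_single ha))

end Q261.CFD
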