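import Mathlib

set_option autoImplicit false

/-!
# Continued fractions: inverse branches, contraction factors, digits
-/

namespace Q261.CFD

open Set Filter Topology

/-- the composition of the inverse branches `x ↦ 1 / (a + x)` along a list of digits -/
noncomputable def phi : List ℕ → ℝ → ℝ
  | [], x => x
  | a :: w, x => ((a : ℝ) + phi w x)⁻¹

/-- the factor `1 / (q_n + x q_(n-1))` -/
noncomputable def D : List ℕ → ℝ → ℝ
  | [], _ => 1
  | a :: w, x => ((a : ℝ) + phi w x)⁻¹ * D w x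

/-- all digits are positive -/
def Pos (w : List ℕ) : Prop := ∀ a ∈ w, 1 ≤ a

lemma Pos.tail {a : ℕ} {w : List ℕ} (h : Pos (a :: w)) : Pos w := fun b hb =>
  h b (List.mem_cons_of_mem _ hb)

lemma Pos.head {a : ℕ} {w : List ℕ} (h : Pos (a :: w)) : 1 ≤ a := h a List.mem_cons_self

lemma Pos.append {u w : List ℕ} (h : Pos u) (h' : Pos w) : Pos (u ++ w) := fun b hb => by
  rcases List.mem_append.1 hb with hb | hb
  · exact h b hb
  · exact h' b hb

@[simp] lemma phi_nil (x : ℝ) : phi [] x = x := rfl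
@[simp] lemma D_nil (x : ℝ) : D [] x = 1 := rfl
lemma phi_cons (a : ℕ) (w : List ℕ) (x : ℝ) : phi (a :: w) x = ((a : ℝ) + phi w x)⁻¹ := rfl
lemma D_cons (a : ℕ) (w : List ℕ) (x : ℝ) : D (a :: w) x = ((a : ℝ) + phi w x)⁻¹ * D w x := rfl

lemma phi_append (u w : List ℕ) (x : ℝ) : phi (u ++ w) x = phi u (phi w x) := by
  induction u with
  | nil => rfl
  | cons a u ih => rw [List.cons_append, phi_cons, ih, phi_cons]

lemma D_append (u w : List ℕ) (x : ℝ) : D (u ++ w) x = D u (phi w x) * D w x := by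
  induction u with
  | nil => simp
  | cons a u ih => rw [List.cons_append, D_cons, ih, D_cons, phi_append, mul_assoc]

lemma phi_nonneg {w : List ℕ} {x : ℝ} (hx : 0 ≤ x) : 0 ≤ phi w x := by
  induction w with
  | nil => exact hx
  | cons a w ih => rw [phi_cons]; positivity

lemma phi_le_one {w : List ℕ} (hw : Pos w) {x : ℝ} (hx : 0 ≤ x) (hx1 : x ≤ 1) : phi w x ≤ 1 := by
  cases w with
  | nil => exact hx1
  | cons a w =>
    rw [phi_cons]
    have h1 : (1 : ℝ) ≤ a := by exact_mod_cast hw.head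
    exact inv_le_one_of_one_le₀ (by linarith [phi_nonneg (w := w) hx])

lemma phi_mem {w : List ℕ} (hw : Pos w) {x : ℝ} (hx : x ∈ Icc (0 : ℝ) 1) :
    phi w x ∈ Icc (0 : ℝ) 1 := ⟨phi_nonneg hx.1, phi_le_one hw hx.1 hx.2⟩

lemma phi_pos {w : List ℕ} (hw : Pos w) {x : ℝ} (hx : 0 < x) : 0 < phi w x := by
  cases w with
  | nil => exact hx
  | cons a w =>
    rw [phi_cons]
    have h1 : (1 : ℝ) ≤ a := by exact_mod_cast hw.head
    have := phi_nonneg (w := w) hx.le
    positivity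

lemma phi_lt_one {w : List ℕ} (hw : Pos w) {x : ℝ} (hx : 0 < x) (hx1 : x < 1) : phi w x < 1 := by
  cases w with
  | nil => exact hx1
  | cons a w =>
    rw [phi_cons]
    have h1 : (1 : ℝ) ≤ a := by exact_mod_cast hw.head
    exact inv_lt_one_of_one_lt₀ (by linarith [phi_pos hw.tail hx])

lemma phi_mem_Ioo {w : List ℕ} (hw : Pos w) {x : ℝ} (hx : x ∈ Ioo (0 : ℝ) 1) :
    phi w x ∈ Ioo (0 : ℝ) 1 := ⟨phi_pos hw hx.1, phi_lt_one hw hx.1 hx.2⟩

lemma D_pos {w : List ℕ} (hw : Pos w) {x : ℝ} (hx : 0 ≤ x) : 0 < D w x := by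
  induction w with
  | nil => simp
  | cons a w ih =>
    rw [D_cons]
    have h1 : (1 : ℝ) ≤ a := by exact_mod_cast hw.head
    have := phi_nonneg (w := w) hx
    have := ih hw.tail
    positivity

lemma D_le_one {w : List ℕ} (hw : Pos w) {x : ℝ} (hx : 0 ≤ x) : D w x ≤ 1 := by
  induction w with
  | nil => simp
  | cons a w ih =>
    rw [D_cons]
    have h1 : (1 : ℝ) ≤ a := by exact_mod_cast hw.head
    have h2 := phi_nonneg (w := w) hx
    have h3 := ih hw.tail
    have h4 := D_pos hw.tail hx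
    have h5 : ((a : ℝ) + phi w x)⁻¹ ≤ 1 := inv_le_one_of_one_le₀ (by linarith)
    have h6 : 0 ≤ ((a : ℝ) + phi w x)⁻¹ := by positivity
    nlinarith

/-- two digits contract by a factor two -/
lemma D_le_half {w : List ℕ} (hw : Pos w) {x : ℝ} (hx : 0 ≤ x) :
    D w x ≤ (1 / 2 : ℝ) ^ (w.length / 2) := by
  induction hn : w.length using Nat.strong_induction_on generalizing w with
  | _ n ih =>
    match w, hw, hn with
    | [], _, hn => simp at hn; subst hn; simp
    | [a], hw, hn => simp at hn; subst hn; simpa using D_le_one hw hx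
    | a :: b :: w, hw, hn =>
      simp only [List.length_cons] at hn
      have h1 := ih w.length (by omega) hw.tail.tail rfl
      have ha : (1 : ℝ) ≤ a := by exact_mod_cast hw.head
      have hb : (1 : ℝ) ≤ b := by exact_mod_cast hw.tail.head
      have h2 := phi_nonneg (w := w) hx
      have h3 := D_pos hw.tail.tail hx
      have h4 : n / 2 = w.length / 2 + 1 := by omega
      rw [h4, D_cons, D_cons, phi_cons, pow_succ]
      have h5 : ((a : ℝ) + ((b : ℝ) + phi w x)⁻¹)⁻¹ * (((b : ℝ) + phi w x)⁻¹ * D w x) =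
          ((a : ℝ) * (b + phi w x) + 1)⁻¹ * D w x := by
        field_simp
      rw [h5]
      have h6 : ((a : ℝ) * (b + phi w x) + 1)⁻¹ ≤ 1 / 2 := by
        rw [inv_le_comm₀ (by positivity) (by norm_num)]
        nlinarith
      calc ((a : ℝ) * (b + phi w x) + 1)⁻¹ * D w x ≤ 1 / 2 * D w x :=
            mul_le_mul_of_nonneg_right h6 h3.le
        _ ≤ (1 / 2) ^ (w.length / 2) * (1 / 2) := by nlinarith

lemma phi_sub {w : List ℕ} (hw : Pos w) {x y : ℝ} (hx : 0 ≤ x) (hy : 0 ≤ y) :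
    |phi w x - phi w y| = |x - y| * (D w x * D w y) := by
  induction w with
  | nil => simp
  | cons a w ih =>
    have h1 : (1 : ℝ) ≤ a := by exact_mod_cast hw.head
    have h2 := phi_nonneg (w := w) hx
    have h3 := phi_nonneg (w := w) hy
    have h4 := D_pos hw.tail hx
    have h5 := D_pos hw.tail hy
    have h6 : phi (a :: w) x - phi (a :: w) y =
        -(phi w x - phi w y) * (((a : ℝ) + phi w x)⁻¹ * ((a : ℝ) + phi w y)⁻¹) := by
      rw [phi_cons, phi_cons]
      have : (a : ℝ) + phi w x ≠ 0 := by positivity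
      have : (a : ℝ) + phi w y ≠ 0 := by positivity
      field_simp
      ring
    have h7 : 0 ≤ ((a : ℝ) + phi w x)⁻¹ * ((a : ℝ) + phi w y)⁻¹ := by positivity
    rw [h6, abs_mul, abs_neg, ih hw.tail, D_cons, D_cons, abs_of_nonneg h7]
    ring

lemma phi_dist_le {w : List ℕ} (hw : Pos w) {x y : ℝ} (hx : x ∈ Icc (0 : ℝ) 1)
    (hy : y ∈ Icc (0 : ℝ) 1) : |phi w x - phi w y| ≤ 2 * (1 / 2 : ℝ) ^ w.length := by
  rw [phi_sub hw hx.1 hy.1]
  have h1 := D_le_half hw hx.1
  have h2 := D_le_half hw hy.1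
  have h3 := D_pos hw hx.1
  have h4 := D_pos hw hy.1
  have h5 : |x - y| ≤ 1 := by
    rw [abs_le]; constructor <;> linarith [hx.1, hx.2, hy.1, hy.2]
  have h6 : (1 / 2 : ℝ) ^ (w.length / 2) * (1 / 2 : ℝ) ^ (w.length / 2) ≤
      2 * (1 / 2 : ℝ) ^ w.length := by
    rw [← pow_add]
    have h7 : (1 / 2 : ℝ) ^ (w.length / 2 + w.length / 2) ≤ (1 / 2 : ℝ) ^ (w.length - 1) :=
      pow_le_pow_of_le_one (by norm_num) (by norm_num) (by omega)
    refine h7.trans ?_
    rcases Nat.eq_zero_or_pos w.length with h0 | h0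
    · rw [h0]; norm_num
    · obtain ⟨k, hk⟩ : ∃ k, w.length = k + 1 := ⟨w.length - 1, by omega⟩
      rw [hk, Nat.add_sub_cancel, pow_succ]
      linarith
  calc |x - y| * (D w x * D w y) ≤ 1 * (D w x * D w y) :=
        mul_le_mul_of_nonneg_right h5 (by positivity)
    _ ≤ (1 / 2 : ℝ) ^ (w.length / 2) * (1 / 2 : ℝ) ^ (w.length / 2) := by
        rw [one_mul]; exact mul_le_mul h1 h2 h4.le (by positivity)
    _ ≤ _ := h6

/-! ### digits -/

/-- the Gauss map -/
noncomputable def gauss (x : ℝ) : ℝ := Int.fract x⁻¹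

/-- the digits -/
noncomputable def digit (x : ℝ) (n : ℕ) : ℤ := ⌊(gauss^[n] x)⁻¹⌋

lemma gauss_branch {a : ℕ} {y : ℝ} (hy : y ∈ Ioo (0 : ℝ) 1) :
    gauss ((a : ℝ) + y)⁻¹ = y ∧ ⌊(((a : ℝ) + y)⁻¹)⁻¹⌋ = (a : ℤ) := by
  have h1 : ⌊(a : ℝ) + y⌋ = (a : ℤ) := by
    rw [Int.floor_eq_iff]
    push_cast
    constructor <;> linarith [hy.1, hy.2]
  constructor
  · unfold gauss
    rw [inv_inv, Int.fract, h1]
    push_cast; ring
  · rw [inv_inv, h1]

lemma gauss_phi {w : List ℕ} (hw : Pos w) {y : ℝ} (hy : y ∈ Ioo (0 : ℝ) 1) :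
    gauss^[w.length] (phi w y) = y := by
  induction w with
  | nil => rfl
  | cons a w ih =>
    rw [List.length_cons, Function.iterate_succ_apply, phi_cons,
      (gauss_branch (phi_mem_Ioo hw.tail hy)).1, ih hw.tail]

lemma gauss_phi_mem {w : List ℕ} (hw : Pos w) {y : ℝ} (hy : y ∈ Ioo (0 : ℝ) 1) {n : ℕ}
    (hn : n ≤ w.length) : gauss^[n] (phi w y) = phi (w.drop n) y := by
  induction n generalizing w with
  | zero => simp
  | succ n ih =>
    cases w with
    | nil => simp at hn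
    | cons a w =>
      rw [Function.iterate_succ_apply, phi_cons, (gauss_branch (phi_mem_Ioo hw.tail hy)).1,
        ih hw.tail (by simpa using hn), List.drop_succ_cons]

lemma digit_phi {w : List ℕ} (hw : Pos w) {y : ℝ} (hy : y ∈ Ioo (0 : ℝ) 1) {n : ℕ}
    (hn : n < w.length) : digit (phi w y) n = (w[n] : ℤ) := by
  unfold digit
  rw [gauss_phi_mem hw hy hn.le, List.drop_eq_getElem_cons hn, phi_cons]
  have h1 : Pos (w.drop (n + 1)) := fun b hb => hw b (List.mem_of_mem_drop hb)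
  exact (gauss_branch (phi_mem_Ioo h1 hy)).2

lemma digit_phi_add {w : List ℕ} (hw : Pos w) {y : ℝ} (hy : y ∈ Ioo (0 : ℝ) 1) (n : ℕ) :
    digit (phi w y) (w.length + n) = digit y n := by
  unfold digit
  rw [add_comm, Function.iterate_add_apply, gauss_phi hw hy]

/-- every number of `(0,1)` is the value of the inverse branch at its Gauss iterate -/
lemma eq_branch {x : ℝ} (hx : x ∈ Ioo (0 : ℝ) 1) :
    ∃ a : ℕ, 1 ≤ a ∧ digit x 0 = (a : ℤ) ∧ x = ((a : ℝ) + gauss x)⁻¹ := by
  have h1 : 1 < x⁻¹ := (one_lt_inv₀ hx.1).2 hx.2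
  have h2 : 1 ≤ ⌊x⁻¹⌋ := Int.le_floor.2 (by push_cast; exact h1.le)
  refine ⟨⌊x⁻¹⌋.toNat, by omega, ?_, ?_⟩
  · unfold digit
    rw [Function.iterate_zero, id]
    omega
  · have h3 : ((⌊x⁻¹⌋.toNat : ℕ) : ℝ) = (⌊x⁻¹⌋ : ℝ) := by
      have : ((⌊x⁻¹⌋.toNat : ℕ) : ℤ) = ⌊x⁻¹⌋ := by omega
      exact_mod_cast congrArg (fun z : ℤ => (z : ℝ)) this
    unfold gauss
    rw [h3, Int.floor_add_fract, inv_inv]

lemma irrational_gauss {x : ℝ} (hx : Irrational x) : Irrational (gauss x) := by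
  unfold gauss
  rw [Int.fract]
  exact hx.inv.sub_intCast _

lemma gauss_mem {x : ℝ} (hx : Irrational x) : gauss x ∈ Ioo (0 : ℝ) 1 := by
  refine ⟨lt_of_le_of_ne (Int.fract_nonneg _) ?_, Int.fract_lt_one _⟩
  intro h
  exact (irrational_gauss hx).ne_zero h.symm

lemma irrational_iter {x : ℝ} (hx : Irrational x) (n : ℕ) : Irrational (gauss^[n] x) := by
  induction n with
  | zero => exact hx
  | succ n ih => rw [Function.iterate_succ_apply']; exact irrational_gauss ih

lemma iter_mem {x : ℝ} (hx : Irrational x) (h0 : x ∈ Ioo (0 : ℝ) 1) (n : ℕ) :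
    gauss^[n] x ∈ Ioo (0 : ℝ) 1 := by
  cases n with
  | zero => exact h0
  | succ n => rw [Function.iterate_succ_apply']; exact gauss_mem (irrational_iter hx n)

/-- a number all of whose Gauss iterates lie in `(0,1)` is irrational -/
lemma irrational_of_iter {x : ℝ} (h : ∀ n, gauss^[n] x ∈ Ioo (0 : ℝ) 1) : Irrational x := by
  have key : ∀ q p : ℕ, (∀ n, gauss^[n] ((p : ℝ) / q) ∈ Ioo (0 : ℝ) 1) → False := by
    intro q
    induction q using Nat.strong_induction_on with
    | _ q ih =>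
      intro p hp
      have h0 := hp 0
      rw [Function.iterate_zero, id] at h0
      have hq : 0 < q := by
        rcases Nat.eq_zero_or_pos q with h1 | h1
        · rw [h1] at h0; simp at h0
        · exact h1
      have hq' : (0 : ℝ) < q := by exact_mod_cast hq
      have hpq : p < q := by
        have := h0.2
        rw [div_lt_one hq'] at this
        exact_mod_cast this
      have hp0 : 0 < p := by
        rcases Nat.eq_zero_or_pos p with h1 | h1
        · rw [h1] at h0; simp at h0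
        · exact h1
      have hp' : (0 : ℝ) < p := by exact_mod_cast hp0
      apply ih p hpq (q % p)
      intro n
      have h1 : gauss ((p : ℝ) / q) = ((q % p : ℕ) : ℝ) / p := by
        unfold gauss
        rw [inv_div]
        have h2 : ((q : ℝ) / p) = ((q / p : ℕ) : ℝ) + ((q % p : ℕ) : ℝ) / p := by
          have := Nat.div_add_mod q p
          have h3 : (q : ℝ) = p * ((q / p : ℕ) : ℝ) + ((q % p : ℕ) : ℝ) := by exact_mod_cast this.symm
          rw [div_eq_iff hp'.ne', add_mul, div_mul_cancel₀ _ hp'.ne']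
          linarith
        rw [h2, Int.fract_natCast_add, Int.fract_eq_self]
        refine ⟨by positivity, ?_⟩
        rw [div_lt_one hp']
        exact_mod_cast Nat.mod_lt _ hp0
      have h4 := hp (n + 1)
      rw [Function.iterate_succ_apply, h1] at h4
      exact h4
  rw [irrational_iff_ne_rational]
  intro a b hb hx
  have h0 := h 0
  rw [Function.iterate_zero, id] at h0
  refine key b.natAbs a.natAbs ?_
  have h1 : x = (a.natAbs : ℝ) / b.natAbs := by
    rw [hx] at h0 ⊢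
    have h2 : |(a : ℝ) / b| = (a : ℝ) / b := abs_of_pos h0.1
    rw [← h2, abs_div, Nat.cast_natAbs, Nat.cast_natAbs]
    push_cast
    rfl
  rw [← h1]
  exact h

/-- the numbers all of whose digits lie in `F` -/
def J (F : Set ℕ) : Set ℝ :=
  {x | x ∈ Ioo (0 : ℝ) 1 ∧ Irrational x ∧ ∀ n, ∃ a ∈ F, digit x n = (a : ℤ)}

lemma J_mono {F G : Set ℕ} (h : F ⊆ G) : J F ⊆ J G := fun _ hx =>
  ⟨hx.1, hx.2.1, fun n => by obtain ⟨a, ha, h1⟩ := hx.2.2 n; exact ⟨a, h ha, h1⟩⟩

lemma digit_succ (x : ℝ) (n : ℕ) : digit x (n + 1) = digit (gauss x) n := by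
  unfold digit
  rw [Function.iterate_succ_apply]

/-- one step -/
lemma J_step {F : Set ℕ} {x : ℝ} (hx : x ∈ J F) :
    ∃ a ∈ F, 1 ≤ a ∧ digit x 0 = (a : ℤ) ∧ gauss x ∈ J F ∧ x = phi [a] (gauss x) := by
  obtain ⟨a, ha, h1, h2⟩ := eq_branch hx.1
  obtain ⟨b, hb, h3⟩ := hx.2.2 0
  have hab : a = b := by
    rw [h1] at h3
    exact_mod_cast h3
  subst hab
  refine ⟨a, hb, ha, h1, ⟨gauss_mem hx.2.1, irrational_gauss hx.2.1, fun n => ?_⟩, ?_⟩
  · obtain ⟨c, hc, h4⟩ := hx.2.2 (n + 1)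
    exact ⟨c, hc, by rw [← digit_succ]; exact h4⟩
  · rw [phi_cons, phi_nil]; exact h2

end Q261.CFD
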