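import Pool.Agent.Q261.CFD.Part3

set_option autoImplicit false

/-!
# Gaps for digits which are powers of `q`, together with `1`
-/

namespace Q261.CFD

open Set Filter Topology MeasureTheory
open scoped ENNReal NNReal

lemma dimH_J_le_one (F : Set ℕ) : dimH (J F) ≤ 1 :=
  (dimH_mono (subset_univ _)).trans Real.dimH_univ.le

/-- the geometric sum -/
lemma tsum_geo_le {C x : ℝ} (hC : 0 ≤ C) (hx : 0 ≤ x) (hx1 : x < 1) {r : ℕ → ℝ}
    (hr0 : ∀ j, 0 ≤ r j) (hr : ∀ j, r j ≤ C * x ^ (j + 1)) :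
    ∑' j, ENNReal.ofReal (r j) ≤ ENNReal.ofReal (C * (x / (1 - x))) := by
  refine ENNReal.tsum_le_of_sum_range_le fun n => ?_
  rw [← ENNReal.ofReal_sum_of_nonneg fun i _ => hr0 i]
  apply ENNReal.ofReal_le_ofReal
  refine (Finset.sum_le_sum fun i _ => hr i).trans ?_
  rw [← Finset.mul_sum]
  refine mul_le_mul_of_nonneg_left ?_ hC
  have h1 : ∀ i ∈ Finset.range n, x ^ (i + 1) = x * x ^ i := fun i _ => pow_succ' x i
  rw [Finset.sum_congr rfl h1, ← Finset.mul_sum, div_eq_mul_inv]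
  refine mul_le_mul_of_nonneg_left ?_ hx
  rw [← tsum_geometric_of_lt_one hx hx1]
  exact (summable_geometric_of_lt_one hx hx1).sum_le_tsum _ (fun i _ => by positivity)

/-- **the gap lemma** -/
theorem gap_or {A : Finset ℕ} {a q : ℕ} (hA : ∀ b ∈ A, 1 ≤ b) (ha : 1 ≤ a) (hq : 2 ≤ q)
    (haA : a ∉ A) (hA0 : A.Nonempty) {s₀ : ℝ} (hs₀ : 0 < s₀)
    (hρ1 : (1 + 2 / (a : ℝ)) ^ 2 * (((q : ℝ) ^ (2 * s₀))⁻¹ / (1 - ((q : ℝ) ^ (2 * s₀))⁻¹)) < 1)
    {G : Set ℕ} (hG : ∀ b ∈ G, b ∈ A ∨ ∃ j : ℕ, b = a * q ^ (j + 1)) :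
    dimH (J G) ≤ ENNReal.ofReal s₀ ∨ dimH (J G) < dimH (J ((insert a A : Finset ℕ) : Set ℕ)) := by
  rcases le_or_gt 1 s₀ with hs1 | hs1
  · left
    refine (dimH_J_le_one G).trans ?_
    rw [← ENNReal.ofReal_one]
    exact ENNReal.ofReal_le_ofReal hs1
  have hq' : (2 : ℝ) ≤ q := by exact_mod_cast hq
  have ha' : (1 : ℝ) ≤ a := by exact_mod_cast ha
  set x : ℝ := ((q : ℝ) ^ (2 * s₀))⁻¹ with hx
  have hx0 : 0 < x := by positivity
  have hx1 : x < 1 := by
    rw [hx]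
    exact inv_lt_one_of_one_lt₀ (Real.one_lt_rpow (by linarith) (by positivity))
  set ρ : ℝ := (1 + 2 / (a : ℝ)) ^ 2 * (x / (1 - x)) with hρ
  have hρ0 : 0 < ρ := by
    have : 0 < 1 - x := by linarith
    positivity
  -- the upper bound by the weighted partition function
  have up : ∀ s : ℝ, s₀ ≤ s → s ≤ 1 → ∀ k, 1 ≤ k → Y A a ρ s k [] < 1 →
      dimH (J G) ≤ ENNReal.ofReal s := by
    intro s hs hs' k hk hY
    have hs0 : 0 < s := hs₀.trans_le hs
    have hd1 : ∀ j : ℕ, 1 ≤ a * q ^ (j + 1) := fun j =>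
      Nat.mul_pos ha (Nat.pow_pos (by omega))
    have hr0 : ∀ j : ℕ, 0 ≤ (((a : ℝ) + 2) / ((a * q ^ (j + 1) : ℕ) : ℝ)) ^ (2 * s) := fun j => by
      positivity
    have hE := E_le_Y (s := s) (ρ := ρ) hA ha (fun j : ℕ => a * q ^ (j + 1)) hd1 hρ0.le
      (fun j => (((a : ℝ) + 2) / ((a * q ^ (j + 1) : ℕ) : ℝ)) ^ (2 * s)) hr0 ?_ ?_ k pos_nil
    · refine dimH_le_of_E (ι := {b // b ∈ A} ⊕ ℕ) ?_ hs0 hk (hE.trans_lt ?_) ?_
      · rintro (b | j)
        · exact hA b b.2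
        · exact hd1 j
      · rw [ENNReal.ofReal_lt_one]; exact hY
      · intro b hb
        rcases hG b hb with h | ⟨j, h⟩
        · exact ⟨Sum.inl ⟨b, h⟩, rfl⟩
        · exact ⟨Sum.inr j, h⟩
    · intro j k u hu
      have := Y_swap hA ha hρ0.le hs0.le k hu pos_nil (s := s) (b := a * q ^ (j + 1))
        (Nat.le_mul_of_pos_right _ (Nat.pow_pos (by omega)))
      simpa only [List.append_nil] using this
    · refine tsum_geo_le (by positivity) hx0.le hx1 hr0 fun j => ?_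
      have e1 : ((a : ℝ) + 2) / ((a * q ^ (j + 1) : ℕ) : ℝ) =
          (1 + 2 / (a : ℝ)) * ((q : ℝ) ^ (j + 1))⁻¹ := by
        push_cast
        field_simp
      rw [e1, Real.mul_rpow (by positivity) (by positivity)]
      have e2 : (1 + 2 / (a : ℝ)) ^ (2 * s) ≤ (1 + 2 / (a : ℝ)) ^ 2 := by
        rw [← Real.rpow_two]
        exact Real.rpow_le_rpow_of_exponent_le (by
          have : 0 ≤ 2 / (a : ℝ) := by positivity
          linarith) (by linarith)
      have e3 : (((q : ℝ) ^ (j + 1))⁻¹) ^ (2 * s) ≤ x ^ (j + 1) := by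
        rw [Real.inv_rpow (by positivity), hx, inv_pow]
        apply inv_anti₀ (by positivity)
        rw [← Real.rpow_natCast, ← Real.rpow_natCast, ← Real.rpow_mul (by positivity),
          ← Real.rpow_mul (by positivity)]
        apply Real.rpow_le_rpow_of_exponent_le (by linarith)
        have : (0 : ℝ) ≤ ((j + 1 : ℕ) : ℝ) := Nat.cast_nonneg _
        nlinarith
      exact mul_le_mul e2 e3 (by positivity) (by positivity)
  set t := dimH (J ((insert a A : Finset ℕ) : Set ℕ)) with ht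
  have ht1 : t ≤ 1 := dimH_J_le_one _
  rcases le_or_gt t (ENNReal.ofReal s₀) with h | h
  · left
    obtain ⟨k, hk, hk'⟩ := exists_Yρ_lt_one hA ha haA hA0 hs₀ h hρ0 hρ1
    exact up s₀ le_rfl hs1.le k hk hk'
  · right
    have htop : t ≠ ⊤ := ne_top_of_le_ne_top ENNReal.one_ne_top ht1
    have e : ENNReal.ofReal t.toReal = t := ENNReal.ofReal_toReal htop
    have hs : s₀ < t.toReal := by
      rw [← e] at h
      exact (ENNReal.ofReal_lt_ofReal_iff_of_nonneg hs₀.le).1 h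
    have ht1' : t.toReal ≤ 1 := by
      have := ENNReal.toReal_mono ENNReal.one_ne_top ht1
      simpa using this
    obtain ⟨k, hk, hk'⟩ := exists_Yρ_lt_one hA ha haA hA0 (hs₀.trans hs) e.ge hρ0 hρ1
    have hc : Continuous fun r : ℝ => Y A a ρ r k [] :=
      (Y_cont hA ha k pos_nil).comp (continuous_const.prodMk continuous_id)
    have h1 : ∀ᶠ r in 𝓝[<] t.toReal, Y A a ρ r k [] < 1 :=
      (hc.continuousAt.eventually (gt_mem_nhds hk')).filter_mono nhdsWithin_le_nhds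
    have h2 : ∀ᶠ r in 𝓝[<] t.toReal, s₀ < r :=
      (lt_mem_nhds hs).filter_mono nhdsWithin_le_nhds
    obtain ⟨r, ⟨hr1, hr2⟩, hr3⟩ := ((h1.and h2).and self_mem_nhdsWithin).exists
    have hr3 : r < t.toReal := hr3
    refine (up r hr2.le (by linarith) k hk hr1).trans_lt ?_
    rw [← e]
    exact (ENNReal.ofReal_lt_ofReal_iff_of_nonneg (by linarith)).2 hr3

/-! ### combinatorics of the lexicographic order -/

/-- one prefix -/
lemma prefix_gap {f : Set ℕ → ℝ} {s₀ : ℝ} {N : ℕ} (mono : ∀ C C', C ⊆ C' → f C ≤ f C')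
    (lex : ∀ l, N < l → ∀ C C' : Set ℕ, (∀ i < l, i ∈ C ↔ i ∈ C') → l ∉ C → l ∈ C' →
      s₀ < f C → f C < f C') (P : Finset ℕ) {a b : ℝ} (hab : a < b) (ha : s₀ ≤ a) :
    ∃ c d, a ≤ c ∧ c < d ∧ d ≤ b ∧ ∀ C : Set ℕ, (∀ i ≤ N, i ∈ C ↔ i ∈ P) → f C ∉ Ioo c d := by
  classical
  by_cases h : ∃ C₁ C₂ : Set ℕ, (∀ i ≤ N, i ∈ C₁ ↔ i ∈ P) ∧ (∀ i ≤ N, i ∈ C₂ ↔ i ∈ P) ∧
      a < f C₁ ∧ f C₁ < f C₂ ∧ f C₂ < b
  · obtain ⟨C₁, C₂, h1, h2, h3, h4, h5⟩ := h
    -- the first difference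
    have hne : ∃ i, ¬ (i ∈ C₁ ↔ i ∈ C₂) := by
      by_contra! hall
      rw [show C₁ = C₂ from Set.ext hall] at h4
      exact lt_irrefl _ h4
    set m := Nat.find hne with hm
    have hm1 : ¬ (m ∈ C₁ ↔ m ∈ C₂) := Nat.find_spec hne
    have hm2 : ∀ i < m, (i ∈ C₁ ↔ i ∈ C₂) := fun i hi => not_not.1 (Nat.find_min hne hi)
    have hmN : N < m := by
      by_contra! hle
      exact hm1 ((h1 m hle).trans (h2 m hle).symm)
    have hm3 : m ∉ C₁ ∧ m ∈ C₂ := by
      by_contra hcon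
      have h6 : m ∉ C₂ ∧ m ∈ C₁ := by tauto
      have := lex m hmN C₂ C₁ (fun i hi => (hm2 i hi).symm) h6.1 h6.2 (by linarith)
      linarith
    set G : Set ℕ := {i | i < m ∧ i ∈ C₁ ∨ m < i} with hG
    set H : Set ℕ := {i | i < m ∧ i ∈ C₁ ∨ i = m} with hH
    have g1 : f C₁ ≤ f G := mono _ _ fun i hi => by
      rcases lt_trichotomy i m with h | h | h
      · exact Or.inl ⟨h, hi⟩
      · exact absurd (h ▸ hi) hm3.1
      · exact Or.inr h
    have g2 : f H ≤ f C₂ := mono _ _ fun i hi => by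
      rcases hi with ⟨h, hi⟩ | h
      · exact (hm2 i h).1 hi
      · rw [h]; exact hm3.2
    have mG : m ∉ G := by
      rintro (⟨h, -⟩ | h)
      · exact lt_irrefl _ h
      · exact lt_irrefl _ h
    have mH : m ∈ H := Or.inr rfl
    have bG : ∀ i < m, (i ∈ G ↔ i ∈ C₁) := fun i hi => by
      constructor
      · rintro (⟨-, h⟩ | h)
        · exact h
        · exact absurd h (by omega)
      · exact fun h => Or.inl ⟨hi, h⟩
    have bH : ∀ i < m, (i ∈ H ↔ i ∈ C₁) := fun i hi => by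
      constructor
      · rintro (⟨-, h⟩ | h)
        · exact h
        · exact absurd h (by omega)
      · exact fun h => Or.inl ⟨hi, h⟩
    have g3 : f G < f H := lex m hmN G H (fun i hi => (bG i hi).trans (bH i hi).symm) mG mH
      (by linarith)
    refine ⟨f G, f H, by linarith, g3, by linarith, ?_⟩
    rintro C hC ⟨c1, c2⟩
    -- compare `C` with `C₁` below `m`
    by_cases hlow : ∃ l, l < m ∧ ¬ (l ∈ C ↔ l ∈ C₁)
    · set l := Nat.find hlow with hl
      have l1 : l < m ∧ ¬ (l ∈ C ↔ l ∈ C₁) := Nat.find_spec hlow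
      have l2 : ∀ i < l, (i ∈ C ↔ i ∈ C₁) := fun i hi => by
        have := Nat.find_min hlow hi
        by_contra hcon
        exact this ⟨hi.trans l1.1, hcon⟩
      have lN : N < l := by
        by_contra! hle
        exact l1.2 ((hC l hle).trans (h1 l hle).symm)
      by_cases hlC : l ∈ C
      · have hl1 : l ∉ C₁ := fun h => l1.2 ⟨fun _ => h, fun _ => hlC⟩
        have := lex l lN H C (fun i hi => ((bH i (hi.trans l1.1)).trans (l2 i hi).symm))
          (fun h => hl1 ((bH l l1.1).1 h)) hlC (by linarith)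
        linarith
      · have hl1 : l ∈ C₁ := by
          by_contra h
          exact l1.2 ⟨fun h' => absurd h' hlC, fun h' => absurd h' h⟩
        have := lex l lN C G (fun i hi => ((l2 i hi).trans (bG i (hi.trans l1.1)).symm)) hlC
          ((bG l l1.1).2 hl1) (by linarith)
        linarith
    · push Not at hlow
      by_cases hmC : m ∈ C
      · have : f H ≤ f C := mono _ _ fun i hi => by
          rcases hi with ⟨h, hi⟩ | h
          · exact (hlow i h).2 hi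
          · rw [h]; exact hmC
        linarith
      · have : f C ≤ f G := mono _ _ fun i hi => by
          rcases lt_trichotomy i m with h | h | h
          · exact Or.inl ⟨h, (hlow i h).1 hi⟩
          · exact absurd (h ▸ hi) hmC
          · exact Or.inr h
        linarith
  · -- at most one value in the interval
    by_cases h1 : ∃ C : Set ℕ, (∀ i ≤ N, i ∈ C ↔ i ∈ P) ∧ a < f C ∧ f C < b
    · obtain ⟨C, hC, h2, h3⟩ := h1
      refine ⟨a, f C, le_rfl, h2, h3.le, ?_⟩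
      rintro C' hC' ⟨h4, h5⟩
      exact h ⟨C', C, hC', hC, h4, h5, h3⟩
    · refine ⟨a, b, le_rfl, hab, le_rfl, ?_⟩
      rintro C hC ⟨h4, h5⟩
      exact h1 ⟨C, hC, h4, h5⟩

/-- all prefixes -/
lemma all_gap {f : Set ℕ → ℝ} {s₀ : ℝ} {N : ℕ} (mono : ∀ C C', C ⊆ C' → f C ≤ f C')
    (lex : ∀ l, N < l → ∀ C C' : Set ℕ, (∀ i < l, i ∈ C ↔ i ∈ C') → l ∉ C → l ∈ C' →
      s₀ < f C → f C < f C') {a b : ℝ} (hab : a < b) (ha : s₀ ≤ a) :
    ∃ c d, a ≤ c ∧ c < d ∧ d ≤ b ∧ ∀ C : Set ℕ, f C ∉ Ioo c d := by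
  classical
  have key : ∀ Q : Finset (Finset ℕ), ∃ c d, a ≤ c ∧ c < d ∧ d ≤ b ∧
      ∀ P ∈ Q, ∀ C : Set ℕ, (∀ i ≤ N, i ∈ C ↔ i ∈ P) → f C ∉ Ioo c d := by
    intro Q
    induction Q using Finset.induction_on with
    | empty => exact ⟨a, b, le_rfl, hab, le_rfl, by simp⟩
    | insert P Q hPQ ih =>
      obtain ⟨c, d, h1, h2, h3, h4⟩ := ih
      obtain ⟨c', d', g1, g2, g3, g4⟩ := prefix_gap mono lex P h2 (ha.trans h1)
      refine ⟨c', d', h1.trans g1, g2, g3.trans h3, ?_⟩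
      intro P' hP' C hC hf
      rcases Finset.mem_insert.1 hP' with h | h
      · rw [h] at hC
        exact g4 C hC hf
      · exact h4 P' h C hC ⟨g1.trans_lt hf.1, hf.2.trans_le g3⟩
  obtain ⟨c, d, h1, h2, h3, h4⟩ := key (Finset.range (N + 1)).powerset
  refine ⟨c, d, h1, h2, h3, fun C => ?_⟩
  refine h4 ((Finset.range (N + 1)).filter (· ∈ C)) ?_ C ?_
  · rw [Finset.mem_powerset]
    exact Finset.filter_subset _ _
  · intro i hi
    simp [hi]

end Q261.CFD
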