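import Pool.Agent.Q261.CFD.Upper
import Pool.Agent.Q261.CFD.Lower

set_option autoImplicit false

/-!
# Blocks of the form `1, ..., 1, b`
-/

namespace Q261.CFD

open Set Filter Topology MeasureTheory
open scoped ENNReal NNReal

lemma pos_rep (j : ℕ) : Pos (List.replicate j 1) := fun a ha => by
  rw [List.eq_of_mem_replicate ha]

lemma pos_block (j : ℕ) {b : ℕ} (hb : 1 ≤ b) : Pos (List.replicate j 1 ++ [b]) :=
  (pos_rep j).append fun a ha => by rw [List.mem_singleton.1 ha]; exact hb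

/-- codings with blocks whose digits lie in `F` have their values in `J F` -/
lemma code_mem_J {V : Type} {B : V → List ℕ} (hB : ∀ v, Pos (B v)) (hB' : ∀ v, B v ≠ [])
    {π : (ℕ → V) → ℝ} (hπ : ∀ ω, π ω ∈ Ioo (0 : ℝ) 1)
    (hrec : ∀ ω, π ω = phi (B (ω 0)) (π fun i => ω (i + 1))) {F : Set ℕ}
    (hF : ∀ v, ∀ a ∈ B v, a ∈ F) (ω : ℕ → V) : π ω ∈ J F := by
  have key : ∀ (n : ℕ) (ω : ℕ → V), gauss^[n] (π ω) ∈ Ioo (0 : ℝ) 1 ∧
      ∃ a ∈ F, digit (π ω) n = (a : ℤ) := by
    intro n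
    induction n using Nat.strong_induction_on with
    | _ n ih =>
      intro ω
      rcases lt_or_ge n (B (ω 0)).length with h | h
      · rw [hrec ω]
        constructor
        · rw [gauss_phi_mem (hB _) (hπ _) h.le]
          exact phi_mem_Ioo (fun b hb => hB _ b (List.mem_of_mem_drop hb)) (hπ _)
        · exact ⟨_, hF _ _ (List.getElem_mem h), digit_phi (hB _) (hπ _) h⟩
      · have h0 : 0 < (B (ω 0)).length := List.length_pos_iff.2 (hB' _)
        obtain ⟨k, hk⟩ := Nat.exists_eq_add_of_le h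
        obtain ⟨h1, h2⟩ := ih k (by omega) fun i => ω (i + 1)
        rw [hrec ω, hk]
        constructor
        · rw [add_comm, Function.iterate_add_apply, gauss_phi (hB _) (hπ _)]
          exact h1
        · rw [digit_phi_add (hB _) (hπ _)]
          exact h2
  exact ⟨hπ ω, irrational_of_iter fun n => (key n ω).1, fun n => (key n ω).2⟩

lemma D_rep_ge (j : ℕ) {x : ℝ} (hx : x ∈ Icc (0 : ℝ) 1) :
    (1 / 2 : ℝ) ^ j ≤ D (List.replicate j 1) x := by
  induction j with
  | zero => simp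
  | succ j ih =>
    rw [List.replicate_succ, D_cons, pow_succ']
    have h1 := phi_le_one (pos_rep j) hx.1 hx.2
    have h2 := phi_nonneg (w := List.replicate j 1) hx.1
    have h3 : (1 / 2 : ℝ) ≤ (((1 : ℕ) : ℝ) + phi (List.replicate j 1) x)⁻¹ := by
      rw [Nat.cast_one, le_inv_comm₀ (by norm_num) (by linarith)]
      linarith
    exact mul_le_mul h3 ih (by positivity) (by positivity)

lemma D_rep_le (j : ℕ) {x : ℝ} (hx : 0 ≤ x) :
    D (List.replicate j 1) x ≤ 2 * (3 / 4 : ℝ) ^ j := by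
  induction j using Nat.strong_induction_on with
  | _ j ih =>
    match j, ih with
    | 0, _ => simp
    | 1, _ =>
      have := D_le_one (pos_rep 1) hx
      linarith
    | j + 2, ih =>
      have h1 := ih j (by omega)
      rw [List.replicate_succ, List.replicate_succ, D_cons, D_cons, phi_cons]
      have h2 := phi_nonneg (w := List.replicate j 1) hx
      have h3 := D_pos (pos_rep j) hx
      have h5 : (((1 : ℕ) : ℝ) + (((1 : ℕ) : ℝ) + phi (List.replicate j 1) x)⁻¹)⁻¹ *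
          ((((1 : ℕ) : ℝ) + phi (List.replicate j 1) x)⁻¹ * D (List.replicate j 1) x) =
          (2 + phi (List.replicate j 1) x)⁻¹ * D (List.replicate j 1) x := by
        rw [Nat.cast_one]
        have : (1 : ℝ) + phi (List.replicate j 1) x ≠ 0 := by positivity
        field_simp
        ring
      rw [h5, pow_succ, pow_succ]
      have h6 : (2 + phi (List.replicate j 1) x)⁻¹ ≤ 1 / 2 := by
        rw [inv_le_comm₀ (by positivity) (by norm_num)]
        linarith
      calc (2 + phi (List.replicate j 1) x)⁻¹ * D (List.replicate j 1) x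
          ≤ 1 / 2 * D (List.replicate j 1) x := mul_le_mul_of_nonneg_right h6 h3.le
        _ ≤ 1 / 2 * (2 * (3 / 4 : ℝ) ^ j) := by linarith
        _ ≤ _ := by nlinarith [pow_pos (show (0 : ℝ) < 3 / 4 by norm_num) j]

lemma D_single (b : ℕ) (x : ℝ) : D [b] x = ((b : ℝ) + x)⁻¹ := by
  rw [D_cons, phi_nil, D_nil, mul_one]

/-- **lower bound** for the dimension of the set of numbers with digits `1` and `a` -/
theorem le_dimH_one_a {a : ℕ} (ha : 3 ≤ a) {s : ℝ≥0} (hs : 0 < s) {k : ℕ} (hk : 2 ≤ k)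
    (h : 1 ≤ ∑ j ∈ Finset.range k, ((1 / 2 : ℝ) ^ (j + 1) / a) ^ (2 * (s : ℝ))) :
    (s : ℝ≥0∞) ≤ dimH (J {1, a}) := by
  have ha' : (3 : ℝ) ≤ a := by exact_mod_cast ha
  have : Nontrivial (Fin k) := Fin.nontrivial_iff_two_le.2 hk
  refine le_dimH_of_blocks (V := Fin k) (B := fun j => List.replicate j 1 ++ [a])
    (ε := fun j => (1 / 2 : ℝ) ^ ((j : ℕ) + 1) / a) (fun j => pos_block j (by omega))
    (fun j => by simp) (fun j => by positivity) ?_ hs ?_ _ ?_
  · intro j x hx
    rw [D_append, D_single]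
    have h1 : phi [a] x ∈ Icc (0 : ℝ) 1 :=
      phi_mem (fun b hb => by rw [List.mem_singleton.1 hb]; omega) hx
    have h2 := D_rep_ge j h1
    have h3 : 1 / 2 / (a : ℝ) ≤ ((a : ℝ) + x)⁻¹ := by
      rw [div_div, one_div, inv_le_inv₀ (by positivity) (by linarith [hx.1])]
      linarith [hx.2]
    calc (1 / 2 : ℝ) ^ ((j : ℕ) + 1) / a = (1 / 2 : ℝ) ^ (j : ℕ) * (1 / 2 / a) := by
          rw [pow_succ]; ring
      _ ≤ _ := mul_le_mul h2 h3 (by positivity) (le_trans (by positivity) h2)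
  · rw [Fin.sum_univ_eq_sum_range (fun j => ((1 / 2 : ℝ) ^ (j + 1) / a) ^ (2 * (s : ℝ))) k]
    exact h
  · intro π hπ hrec
    have hmem : ∀ v : Fin k, ∀ b ∈ List.replicate (v : ℕ) 1 ++ [a], b ∈ ({1, a} : Set ℕ) := by
      intro j b hb
      rcases List.mem_append.1 hb with hb | hb
      · rw [List.eq_of_mem_replicate hb]; simp
      · rw [List.mem_singleton.1 hb]; simp
    refine ⟨fun ω => code_mem_J (V := Fin k) (B := fun j : Fin k => List.replicate (j : ℕ) 1 ++ [a])
      (fun j => pos_block _ (by omega : 1 ≤ a)) (fun j => by simp) hπ hrec hmem ω,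
      (1 / 4 : ℝ) ^ k / 6, by positivity, ?_⟩
    · have main : ∀ (i j : Fin k) (y z : ℝ), y ∈ Ioo (0 : ℝ) 1 → z ∈ Ioo (0 : ℝ) 1 → i < j →
          (1 / 4 : ℝ) ^ k / 6 ≤ |phi (List.replicate i 1 ++ [a]) y -
            phi (List.replicate j 1 ++ [a]) z| := by
        intro i j y z hy hz hij
        obtain ⟨d, hd⟩ : ∃ d : ℕ, (j : ℕ) = i + (d + 1) := ⟨j - i - 1, by
          have : (i : ℕ) < j := hij
          omega⟩
        have h1 : List.replicate (j : ℕ) 1 ++ [a] =
            List.replicate (i : ℕ) 1 ++ (1 :: (List.replicate d 1 ++ [a])) := by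
          rw [hd, List.replicate_add, List.append_assoc, List.replicate_succ, List.cons_append]
        rw [h1, phi_append, phi_append]
        have hp1 : Pos [a] := fun b hb => by rw [List.mem_singleton.1 hb]; omega
        have hp2 := pos_block d (b := a) (by omega)
        have m1 : phi [a] y ∈ Icc (0 : ℝ) 1 := phi_mem hp1 (Ioo_subset_Icc_self hy)
        have m2 : phi (1 :: (List.replicate d 1 ++ [a])) z ∈ Icc (0 : ℝ) 1 :=
          phi_mem (fun b hb => by
            rcases List.mem_cons.1 hb with hb | hb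
            · omega
            · exact hp2 b hb) (Ioo_subset_Icc_self hz)
        rw [phi_sub (pos_rep _) m1.1 m2.1]
        have d1 := D_rep_ge i m1
        have d2 := D_rep_ge i m2
        have h2 : phi [a] y ≤ 1 / 3 := by
          rw [phi_cons, phi_nil, inv_le_comm₀ (by linarith [hy.1]) (by norm_num)]
          linarith [hy.1]
        have h3 : 1 / 2 ≤ phi (1 :: (List.replicate d 1 ++ [a])) z := by
          rw [phi_cons, Nat.cast_one]
          have h4 := phi_mem hp2 (Ioo_subset_Icc_self hz)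
          rw [le_inv_comm₀ (by norm_num) (by linarith [h4.1])]
          linarith [h4.2]
        have h4 : 1 / 6 ≤ |phi [a] y - phi (1 :: (List.replicate d 1 ++ [a])) z| := by
          rw [abs_sub_comm]
          refine le_trans ?_ (le_abs_self _)
          linarith
        have h5 : (1 / 4 : ℝ) ^ k ≤ (1 / 4 : ℝ) ^ (i : ℕ) :=
          pow_le_pow_of_le_one (by norm_num) (by norm_num) i.2.le
        have h6 : (1 / 4 : ℝ) ^ (i : ℕ) = (1 / 2 : ℝ) ^ (i : ℕ) * (1 / 2 : ℝ) ^ (i : ℕ) := by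
          rw [← mul_pow]; norm_num
        have h7 : (1 / 4 : ℝ) ^ (i : ℕ) ≤ D (List.replicate i 1) (phi [a] y) *
            D (List.replicate i 1) (phi (1 :: (List.replicate d 1 ++ [a])) z) := by
          rw [h6]
          exact mul_le_mul d1 d2 (by positivity) (le_trans (by positivity) d1)
        calc (1 / 4 : ℝ) ^ k / 6 = 1 / 6 * (1 / 4 : ℝ) ^ k := by ring
          _ ≤ _ := mul_le_mul h4 (h5.trans h7) (by positivity) (abs_nonneg _)
      intro ω ω' hne
      rw [hrec ω, hrec ω']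
      rcases lt_or_gt_of_ne hne with h | h
      · exact main _ _ _ _ (hπ _) (hπ _) h
      · rw [abs_sub_comm]
        exact main _ _ _ _ (hπ _) (hπ _) h

/-! ### upper bounds -/

/-- the numbers in `(0,1)` all of whose digits are `1` -/
def ones : Set ℝ := {x | x ∈ Ioo (0 : ℝ) 1 ∧ Irrational x ∧ ∀ n, digit x n = 1}

lemma ones_phi {x : ℝ} (hx : x ∈ ones) (n : ℕ) : x = phi (List.replicate n 1) (gauss^[n] x) := by
  induction n generalizing x with
  | zero => rfl
  | succ n ih =>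
    obtain ⟨a, -, h1, h2⟩ := eq_branch hx.1
    have ha : a = 1 := by
      have := hx.2.2 0
      rw [h1] at this
      exact_mod_cast this
    subst ha
    have h3 : gauss x ∈ ones := ⟨gauss_mem hx.2.1, irrational_gauss hx.2.1, fun n => by
      rw [← digit_succ]; exact hx.2.2 _⟩
    rw [Function.iterate_succ_apply, List.replicate_succ, phi_cons, ← ih h3]
    exact h2

lemma ones_subsingleton : ones.Subsingleton := by
  intro x hx y hy
  have h1 : ∀ n : ℕ, |x - y| ≤ 2 * (1 / 2 : ℝ) ^ n := by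
    intro n
    rw [ones_phi hx n, ones_phi hy n]
    have := phi_dist_le (pos_rep n) (Ioo_subset_Icc_self (iter_mem hx.2.1 hx.1 n))
      (Ioo_subset_Icc_self (iter_mem hy.2.1 hy.1 n))
    rwa [List.length_replicate] at this
  have h2 : Tendsto (fun n : ℕ => 2 * (1 / 2 : ℝ) ^ n) atTop (𝓝 (2 * 0)) :=
    (tendsto_pow_atTop_nhds_zero_of_lt_one (by norm_num) (by norm_num)).const_mul 2
  have h3 := ge_of_tendsto' h2 h1
  rw [mul_zero] at h3
  have := abs_nonneg (x - y)
  exact sub_eq_zero.1 (abs_eq_zero.1 (le_antisymm h3 this))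

lemma iter_phi {F : Set ℕ} {x : ℝ} (hx : x ∈ J F) (n : ℕ) :
    gauss^[n] x ∈ J F ∧ ∃ w : List ℕ, w.length = n ∧ Pos w ∧ x = phi w (gauss^[n] x) := by
  induction n generalizing x with
  | zero => exact ⟨hx, [], rfl, fun a ha => by simp at ha, rfl⟩
  | succ n ih =>
    obtain ⟨a, -, ha, -, h1, h2⟩ := J_step hx
    obtain ⟨h3, w, h4, h5, h6⟩ := ih h1
    rw [Function.iterate_succ_apply]
    refine ⟨h3, a :: w, by simp [h4], ?_, ?_⟩
    · intro b hb
      rcases List.mem_cons.1 hb with hb | hb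
      · omega
      · exact h5 b hb
    · rw [phi_cons, ← h6]
      rw [phi_cons, phi_nil] at h2
      exact h2

/-- the numbers with only finitely many digits different from `1` do not matter -/
lemma dimH_tail (F : Set ℕ) : dimH {x ∈ J F | ∃ n, ∀ m ≥ n, digit x m = 1} = 0 := by
  have h1 : {x ∈ J F | ∃ n, ∀ m ≥ n, digit x m = 1} ⊆ ⋃ w : List ℕ, phi w '' ones := by
    rintro x ⟨hx, n, hn⟩
    obtain ⟨h3, w, -, -, h6⟩ := iter_phi hx n
    refine mem_iUnion.2 ⟨w, gauss^[n] x, ⟨h3.1, h3.2.1, fun m => ?_⟩, h6.symm⟩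
    have := hn (m + n) (by omega)
    unfold digit at this ⊢
    rw [← Function.iterate_add_apply]
    exact this
  have h2 : dimH (⋃ w : List ℕ, phi w '' ones) = 0 := by
    rw [dimH_iUnion]
    simp only [ENNReal.iSup_eq_zero]
    exact fun w => dimH_subsingleton (ones_subsingleton.image _)
  exact le_antisymm ((dimH_mono h1).trans h2.le) zero_le

/-- **upper bound**, digits `1` and digits among the `b i` -/
theorem dimH_J_le_ones {F : Set ℕ} (b : ℕ → ℕ) (hb : ∀ i, 1 ≤ b i)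
    (hF : ∀ a ∈ F, a = 1 ∨ ∃ i, a = b i) {s : ℝ≥0} (hs : 0 < s)
    (h : (∑' j : ℕ, ((2 * (3 / 4) ^ j : ℝ≥0) : ℝ≥0∞) ^ (2 * (s : ℝ))) *
      (∑' i : ℕ, (((b i : ℝ≥0)⁻¹ : ℝ≥0) : ℝ≥0∞) ^ (2 * (s : ℝ))) < 1) :
    dimH (J F) ≤ s := by
  have h1 : J F = {x ∈ J F | ∃ n, ∀ m ≥ n, digit x m = 1} ∪
      {x ∈ J F | ∀ n, ∃ m ≥ n, digit x m ≠ 1} := by
    ext x
    simp only [mem_union, Set.mem_ofPred_eq]
    constructor
    · intro hx
      by_cases h : ∃ n, ∀ m ≥ n, digit x m = 1
      · exact Or.inl ⟨hx, h⟩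
      · push Not at h
        exact Or.inr ⟨hx, h⟩
    · rintro (h | h)
      · exact h.1
      · exact h.1
  rw [h1, dimH_union, dimH_tail, max_eq_right zero_le]
  refine dimH_le_of_blocks (V := ℕ × ℕ) (fun p => List.replicate p.1 1 ++ [b p.2])
    (fun p => pos_block _ (hb _)) (fun p => by simp)
    (fun p => (2 * (3 / 4) ^ p.1) * (b p.2 : ℝ≥0)⁻¹) ?_ s hs ?_ _ ?_ ?_
  · rintro ⟨j, i⟩ x hx
    rw [D_append, D_single]
    have m1 : 0 ≤ phi [b i] x := phi_nonneg hx.1
    have d1 := D_rep_le j m1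
    have hb' : (1 : ℝ) ≤ b i := by exact_mod_cast hb i
    have d2 : ((b i : ℝ) + x)⁻¹ ≤ (b i : ℝ)⁻¹ :=
      inv_anti₀ (by linarith) (by linarith [hx.1])
    push_cast
    exact mul_le_mul d1 d2 (by have := hx.1; positivity) (by positivity)
  · have h2 : ∀ p : ℕ × ℕ, (((2 * (3 / 4) ^ p.1) * (b p.2 : ℝ≥0)⁻¹ : ℝ≥0) : ℝ≥0∞) ^ (2 * (s : ℝ)) =
        ((2 * (3 / 4) ^ p.1 : ℝ≥0) : ℝ≥0∞) ^ (2 * (s : ℝ)) *
          (((b p.2 : ℝ≥0)⁻¹ : ℝ≥0) : ℝ≥0∞) ^ (2 * (s : ℝ)) := by
      intro p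
      rw [ENNReal.coe_mul, ENNReal.mul_rpow_of_nonneg _ _ (by positivity)]
    simp_rw [h2]
    rw [ENNReal.tsum_prod']
    simp only [ENNReal.tsum_mul_left, ENNReal.tsum_mul_right]
    exact h
  · rintro x ⟨hx, -⟩
    exact Ioo_subset_Icc_self hx.1
  · rintro x ⟨hx, hinf⟩
    obtain ⟨m0, -, hm0⟩ := hinf 0
    -- induction on the position of the first digit different from one
    have key : ∀ (m : ℕ) (x : ℝ), x ∈ {x ∈ J F | ∀ n, ∃ m ≥ n, digit x m ≠ 1} → digit x m ≠ 1 →
        ∃ v : ℕ × ℕ, ∃ y ∈ {x ∈ J F | ∀ n, ∃ m ≥ n, digit x m ≠ 1},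
          x = phi (List.replicate v.1 1 ++ [b v.2]) y := by
      intro m
      induction m with
      | zero =>
        rintro x ⟨hx, hinf⟩ h0
        obtain ⟨a, haF, ha, hd, hg, he⟩ := J_step hx
        rcases hF a haF with h1 | ⟨i, h1⟩
        · exfalso; apply h0; rw [hd, h1]; rfl
        · refine ⟨(0, i), gauss x, ⟨hg, fun n => ?_⟩, ?_⟩
          · obtain ⟨m, hm, hm'⟩ := hinf (n + 1)
            refine ⟨m - 1, by omega, ?_⟩
            rw [← digit_succ, show m - 1 + 1 = m by omega]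
            exact hm'
          · simpa [h1] using he
      | succ m ih =>
        rintro x ⟨hx, hinf⟩ h0
        obtain ⟨a, haF, ha, hd, hg, he⟩ := J_step hx
        have hg' : gauss x ∈ {x ∈ J F | ∀ n, ∃ m ≥ n, digit x m ≠ 1} := ⟨hg, fun n => by
          obtain ⟨m, hm, hm'⟩ := hinf (n + 1)
          refine ⟨m - 1, by omega, ?_⟩
          rw [← digit_succ, show m - 1 + 1 = m by omega]
          exact hm'⟩
        rcases hF a haF with h1 | ⟨i, h1⟩
        · obtain ⟨⟨j, i⟩, y, hy, hy'⟩ := ih (gauss x) hg' (by rw [← digit_succ]; exact h0)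
          refine ⟨(j + 1, i), y, hy, ?_⟩
          rw [List.replicate_succ, List.cons_append, phi_cons, ← hy']
          rw [phi_cons, phi_nil, h1] at he
          exact he
        · exact ⟨(0, i), gauss x, hg', by simpa [h1] using he⟩
    exact key m0 x ⟨hx, hinf⟩ hm0

/-- **upper bound**, digits among the `b i` -/
theorem dimH_J_le {F : Set ℕ} (b : ℕ → ℕ) (hb : ∀ i, 1 ≤ b i)
    (hF : ∀ a ∈ F, ∃ i, a = b i) {s : ℝ≥0} (hs : 0 < s)
    (h : (∑' i : ℕ, (((b i : ℝ≥0)⁻¹ : ℝ≥0) : ℝ≥0∞) ^ (2 * (s : ℝ))) < 1) :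
    dimH (J F) ≤ s := by
  refine dimH_le_of_blocks (V := ℕ) (fun i => [b i])
    (fun i a ha => by rw [List.mem_singleton.1 ha]; exact hb i) (fun i => by simp)
    (fun i => (b i : ℝ≥0)⁻¹) ?_ s hs h _ ?_ ?_
  · intro i x hx
    rw [D_single]
    have hb' : (1 : ℝ) ≤ b i := by exact_mod_cast hb i
    push_cast
    exact inv_anti₀ (by linarith) (by linarith [hx.1])
  · exact fun x hx => Ioo_subset_Icc_self hx.1
  · intro x hx
    obtain ⟨a, haF, ha, hd, hg, he⟩ := J_step hx
    obtain ⟨i, hi⟩ := hF a haF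
    exact ⟨i, gauss x, hg, by rw [← hi]; exact he⟩

end Q261.CFD
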