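import Pool.Agent.Q261.CFD.Part

set_option autoImplicit false

/-!
# Partition functions and dimension
-/

namespace Q261.CFD

open Set Filter Topology MeasureTheory
open scoped ENNReal NNReal

/-- the partition function for countably many digits -/
noncomputable def E {ι : Type} (g : ι → ℕ) (s : ℝ) : ℕ → List ℕ → ℝ≥0∞
  | 0, u => ENNReal.ofReal (D u 0) ^ (2 * s)
  | k + 1, u => ∑' i, E g s k (u ++ [g i])

lemma E_eq {ι : Type} (g : ι → ℕ) (s : ℝ) (k : ℕ) (u : List ℕ) :
    ∑' v : Fin k → ι, ENNReal.ofReal (D (u ++ List.ofFn (g ∘ v)) 0) ^ (2 * s) = E g s k u := by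
  induction k generalizing u with
  | zero => simp [E, tsum_fintype]
  | succ k ih =>
    rw [← (Fin.consEquiv fun _ => ι).tsum_eq, ENNReal.tsum_prod']
    change _ = ∑' i, E g s k (u ++ [g i])
    refine tsum_congr fun i => ?_
    rw [← ih]
    refine tsum_congr fun v => ?_
    have : List.ofFn (g ∘ (Fin.consEquiv fun _ => ι) (i, v)) = g i :: List.ofFn (g ∘ v) := by
      rw [List.ofFn_succ]
      rfl
    rw [this, List.append_assoc, List.singleton_append]

lemma iter_phi' {F : Set ℕ} {x : ℝ} (hx : x ∈ J F) (n : ℕ) :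
    gauss^[n] x ∈ J F ∧ ∃ w : List ℕ, w.length = n ∧ (∀ a ∈ w, a ∈ F) ∧ x = phi w (gauss^[n] x) := by
  induction n generalizing x with
  | zero => exact ⟨hx, [], rfl, fun a ha => by simp at ha, rfl⟩
  | succ n ih =>
    obtain ⟨a, haF, ha, -, h1, h2⟩ := J_step hx
    obtain ⟨h3, w, h4, h5, h6⟩ := ih h1
    rw [Function.iterate_succ_apply]
    refine ⟨h3, a :: w, by simp [h4], ?_, ?_⟩
    · intro b hb
      rcases List.mem_cons.1 hb with hb | hb
      · rw [hb]; exact haF
      · exact h5 b hb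
    · rw [phi_cons, ← h6]
      rw [phi_cons, phi_nil] at h2
      exact h2

lemma exists_fn {ι : Type} {g : ι → ℕ} {F : Set ℕ} (hF : ∀ a ∈ F, ∃ i, a = g i) (w : List ℕ)
    (hw : ∀ a ∈ w, a ∈ F) : ∃ v : Fin w.length → ι, w = List.ofFn (g ∘ v) := by
  choose f hf using hF
  refine ⟨fun i => f w[i] (hw _ (List.getElem_mem _)), ?_⟩
  apply List.ext_getElem
  · simp
  · intro n h1 h2
    simp only [List.getElem_ofFn, Function.comp]
    exact hf _ _

/-- **upper bound** by the partition function -/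
theorem dimH_le_of_E {ι : Type} [Countable ι] {g : ι → ℕ} (hg : ∀ i, 1 ≤ g i) {s : ℝ} (hs : 0 < s)
    {k : ℕ} (hk : 1 ≤ k) (h : E g s k [] < 1) {F : Set ℕ} (hF : ∀ a ∈ F, ∃ i, a = g i) :
    dimH (J F) ≤ ENNReal.ofReal s := by
  have hP : ∀ v : Fin k → ι, Pos (List.ofFn (g ∘ v)) := by
    intro v a ha
    rw [List.mem_ofFn] at ha
    obtain ⟨i, rfl⟩ := ha
    exact hg _
  refine dimH_le_of_blocks (V := Fin k → ι) (fun v => List.ofFn (g ∘ v)) hP ?_
    (fun v => (D (List.ofFn (g ∘ v)) 0).toNNReal) ?_ s.toNNReal (Real.toNNReal_pos.2 hs) ?_ _ ?_ ?_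
  · intro v h0
    have := congrArg List.length h0
    simp at this
    omega
  · intro v x hx
    rw [Real.coe_toNNReal _ (D_pos (hP v) le_rfl).le]
    exact D_le_zero (hP v) hx.1
  · rw [Real.coe_toNNReal _ hs.le]
    have := E_eq g s k []
    simp only [List.nil_append] at this
    change ∑' v : Fin k → ι, ENNReal.ofReal (D (List.ofFn (g ∘ v)) 0) ^ (2 * s) < 1
    rw [this]
    exact h
  · exact fun x hx => Ioo_subset_Icc_self hx.1
  · intro x hx
    obtain ⟨h1, w, h2, h3, h4⟩ := iter_phi' hx k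
    obtain ⟨v, hv⟩ := exists_fn hF w h3
    subst h2
    exact ⟨v, _, h1, by rw [← hv]; exact h4⟩

/-- comparison of the two partition functions -/
lemma E_le_Y {A : Finset ℕ} {a : ℕ} (hA : ∀ b ∈ A, 1 ≤ b) (ha : 1 ≤ a) {κ : Type} (d : κ → ℕ)
    (hd1 : ∀ j, 1 ≤ d j) {ρ s : ℝ} (hρ : 0 ≤ ρ) (r : κ → ℝ) (hr : ∀ j, 0 ≤ r j)
    (hd : ∀ j k u, Pos u → Y A a ρ s k (u ++ [d j]) ≤ r j * Y A a ρ s k (u ++ [a]))
    (hsum : ∑' j, ENNReal.ofReal (r j) ≤ ENNReal.ofReal ρ) (k : ℕ) {u : List ℕ}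
    (hu : Pos u) :
    E (Sum.elim (fun b : {b // b ∈ A} => (b : ℕ)) d) s k u ≤ ENNReal.ofReal (Y A a ρ s k u) := by
  induction k generalizing u with
  | zero =>
    change ENNReal.ofReal (D u 0) ^ (2 * s) ≤ _
    rw [Y_zero, ENNReal.ofReal_rpow_of_pos (D_pos hu le_rfl)]
  | succ k ih =>
    change ∑' i, E (Sum.elim (fun b : {b // b ∈ A} => (b : ℕ)) d) s k
      (u ++ [Sum.elim (fun b : {b // b ∈ A} => (b : ℕ)) d i]) ≤ _
    have hn : ∀ b ∈ A, 0 ≤ Y A a ρ s k (u ++ [b]) := fun b hb =>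
      Y_nonneg hA ha hρ k (hu.append (pos_single (hA b hb)))
    have hna : 0 ≤ Y A a ρ s k (u ++ [a]) := Y_nonneg hA ha hρ k (hu.append (pos_single ha))
    rw [Summable.tsum_sum ENNReal.summable ENNReal.summable, Y_succ,
      ENNReal.ofReal_add (Finset.sum_nonneg hn) (mul_nonneg hρ hna)]
    refine add_le_add ?_ ?_
    · rw [tsum_fintype, ENNReal.ofReal_sum_of_nonneg hn, ← Finset.sum_coe_sort A]
      exact Finset.sum_le_sum fun b _ => ih (hu.append (pos_single (hA b b.2)))
    · calc ∑' j, E (Sum.elim (fun b : {b // b ∈ A} => (b : ℕ)) d) s k (u ++ [d j])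
          ≤ ∑' j, ENNReal.ofReal (r j) * ENNReal.ofReal (Y A a ρ s k (u ++ [a])) := by
            refine ENNReal.tsum_le_tsum fun j => ?_
            refine (ih (hu.append (pos_single (hd1 j)))).trans ?_
            rw [← ENNReal.ofReal_mul (hr j)]
            exact ENNReal.ofReal_le_ofReal (hd j k u hu)
        _ ≤ ENNReal.ofReal ρ * ENNReal.ofReal (Y A a ρ s k (u ++ [a])) := by
            rw [ENNReal.tsum_mul_right]
            exact mul_le_mul' hsum le_rfl
        _ = _ := (ENNReal.ofReal_mul hρ).symm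

/-- the partition function as a sum over words -/
lemma Y_eq {A : Finset ℕ} {a : ℕ} (haA : a ∉ A) (s : ℝ) (k : ℕ) (u : List ℕ) :
    ∑ v : Fin k → {b // b ∈ insert a A}, D (u ++ List.ofFn fun i => (v i : ℕ)) 0 ^ (2 * s) =
      Y A a 1 s k u := by
  induction k generalizing u with
  | zero => simp [Y_zero]
  | succ k ih =>
    rw [← (Fin.consEquiv fun _ => {b // b ∈ insert a A}).sum_comp, Fintype.sum_prod_type, Y_succ,
      one_mul, add_comm (∑ b ∈ A, Y A a 1 s k (u ++ [b])) _, ← Finset.sum_insert (f := fun b => Y A a 1 s k (u ++ [b])) haA,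
      ← Finset.sum_coe_sort (insert a A)]
    refine Finset.sum_congr rfl fun i _ => ?_
    rw [← ih]
    refine Finset.sum_congr rfl fun v _ => ?_
    have : (List.ofFn fun j => (((Fin.consEquiv fun _ => {b // b ∈ insert a A}) (i, v) j :
        {b // b ∈ insert a A}) : ℕ)) = (i : ℕ) :: List.ofFn fun j => (v j : ℕ) := by
      rw [List.ofFn_succ]
      rfl
    rw [this, List.append_assoc, List.singleton_append]

/-- points of `J F` for bounded `F` stay away from `1` -/
lemma J_le {F : Set ℕ} {m : ℕ} (hm : ∀ a ∈ F, a ≤ m) {x : ℝ} (hx : x ∈ J F) :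
    x ≤ ((m : ℝ) + 1) / (m + 2) ∧ 1 / ((m : ℝ) + 1) ≤ x := by
  have key : ∀ y ∈ J F, 1 / ((m : ℝ) + 1) ≤ y := by
    intro y hy
    obtain ⟨a, haF, ha, -, hg, he⟩ := J_step hy
    have h1 : (a : ℝ) ≤ m := by exact_mod_cast hm a haF
    have h2 : (1 : ℝ) ≤ a := by exact_mod_cast ha
    rw [he, phi_cons, phi_nil, one_div]
    apply inv_anti₀ (by linarith [hg.1.1])
    linarith [hg.1.2]
  refine ⟨?_, key x hx⟩
  obtain ⟨a, haF, ha, -, hg, he⟩ := J_step hx
  have h1 : (1 : ℝ) ≤ a := by exact_mod_cast ha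
  have h3 := key _ hg
  have h0 : (0 : ℝ) ≤ m := m.cast_nonneg
  rw [he, phi_cons, phi_nil, inv_le_comm₀ (by linarith [hg.1.1]) (by positivity), inv_div]
  have : ((m : ℝ) + 2) / (m + 1) = 1 + 1 / (m + 1) := by field_simp; ring
  rw [this]
  linarith

lemma branch_sep {m b c : ℕ} (hb : 1 ≤ b) (hbc : b < c) (hc : c ≤ m) {y z : ℝ}
    (hy : 0 ≤ y) (hy1 : y ≤ ((m : ℝ) + 1) / (m + 2)) (hz : z ∈ Ioo (0 : ℝ) 1) :
    1 / ((m : ℝ) + 2) ^ 3 ≤ phi [b] y - phi [c] z := by
  have h1 : (b : ℝ) + 1 ≤ c := by exact_mod_cast hbc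
  have h2 : (1 : ℝ) ≤ b := by exact_mod_cast hb
  have h3 : (c : ℝ) ≤ m := by exact_mod_cast hc
  rw [phi_cons, phi_nil, phi_cons, phi_nil, inv_sub_inv (by positivity) (by
    have := hz.1; positivity)]
  have h4 : 1 / ((m : ℝ) + 2) ≤ (c : ℝ) + z - (b + y) := by
    have : ((m : ℝ) + 1) / (m + 2) = 1 - 1 / (m + 2) := by
      have : (m : ℝ) + 2 ≠ 0 := by positivity
      field_simp; ring
    rw [this] at hy1
    linarith [hz.1]
  have h5 : ((b : ℝ) + y) * (c + z) ≤ ((m : ℝ) + 2) ^ 2 := by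
    have hy2 : y ≤ 1 := hy1.trans (by rw [div_le_one (by positivity)]; linarith)
    have h6 : (b : ℝ) + y ≤ m + 2 := by linarith
    have h7 : (c : ℝ) + z ≤ m + 2 := by linarith [hz.2]
    rw [sq]
    exact mul_le_mul h6 h7 (by have := hz.1; positivity) (by positivity)
  have h8 : 0 < ((b : ℝ) + y) * (c + z) := by have := hz.1; positivity
  rw [le_div_iff₀ h8]
  calc 1 / ((m : ℝ) + 2) ^ 3 * ((b + y) * (c + z)) ≤ 1 / ((m : ℝ) + 2) ^ 3 * ((m : ℝ) + 2) ^ 2 :=
        mul_le_mul_of_nonneg_left h5 (by positivity)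
    _ = 1 / ((m : ℝ) + 2) := by field_simp
    _ ≤ _ := h4

lemma D_ge_pow {w : List ℕ} {m : ℕ} (hw : Pos w) (hm : ∀ a ∈ w, a ≤ m) {x : ℝ}
    (hx : x ∈ Icc (0 : ℝ) 1) : (1 / ((m : ℝ) + 1)) ^ w.length ≤ D w x := by
  induction w with
  | nil => simp
  | cons a w ih =>
    rw [D_cons, List.length_cons, pow_succ']
    have h1 := ih hw.tail fun b hb => hm b (List.mem_cons_of_mem _ hb)
    have h2 := phi_mem hw.tail hx
    have h3 : (a : ℝ) ≤ m := by exact_mod_cast hm a List.mem_cons_self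
    have h4 : (1 : ℝ) ≤ a := by exact_mod_cast hw.head
    refine mul_le_mul ?_ h1 (by positivity) (by have := h2.1; positivity)
    rw [one_div]
    exact inv_anti₀ (by linarith [h2.1]) (by linarith [h2.2])

/-- words of the same length with different letters are separated -/
lemma word_sep {m : ℕ} : ∀ (w w' : List ℕ), w.length = w'.length → w ≠ w' → Pos w → Pos w' →
    (∀ a ∈ w, a ≤ m) → (∀ a ∈ w', a ≤ m) → ∀ y z : ℝ,
    0 < y → y ≤ ((m : ℝ) + 1) / (m + 2) → 0 < z → z ≤ ((m : ℝ) + 1) / (m + 2) →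
    (∀ v v' : List ℕ, v <:+ w → v' <:+ w' → phi v y ≤ ((m : ℝ) + 1) / (m + 2) ∧
      phi v' z ≤ ((m : ℝ) + 1) / (m + 2)) →
    (1 / ((m : ℝ) + 1)) ^ (2 * w.length) * (1 / ((m : ℝ) + 2) ^ 3) ≤ |phi w y - phi w' z| := by
  intro w
  induction w with
  | nil =>
    intro w' h1 h2
    exact absurd (List.length_eq_zero_iff.1 h1.symm).symm h2
  | cons b w ih =>
    intro w' h1 h2 hw hw' hm hm' y z hy hy1 hz hz1 hS
    cases w' with
    | nil => simp at h1
    | cons c w' =>
      have hm1 : ((m : ℝ) + 1) / (m + 2) < 1 := by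
        rw [div_lt_one (by positivity)]; linarith
      have hb1 : (b : ℝ) ≤ m := by exact_mod_cast hm b List.mem_cons_self
      have hc1 : (c : ℝ) ≤ m := by exact_mod_cast hm' c List.mem_cons_self
      have p1 := phi_mem_Ioo hw.tail ⟨hy, hy1.trans_lt hm1⟩
      have p2 := phi_mem_Ioo hw'.tail ⟨hz, hz1.trans_lt hm1⟩
      have hs := hS w w' (List.suffix_cons _ _) (List.suffix_cons _ _)
      have hle : (1 / ((m : ℝ) + 1)) ^ (2 * (b :: w).length) ≤ 1 :=
        pow_le_one₀ (by positivity) (by rw [div_le_one (by positivity)]; linarith [m.cast_nonneg (α := ℝ)])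
      rcases lt_trichotomy b c with hbc | hbc | hbc
      · have := branch_sep hw.head hbc (hm' c List.mem_cons_self) p1.1.le hs.1 p2
        rw [phi_cons, phi_nil, phi_cons, phi_nil] at this
        rw [phi_cons, phi_cons]
        refine le_trans ?_ (this.trans (le_abs_self _))
        exact mul_le_of_le_one_left (by positivity) hle
      · subst hbc
        have hne : w ≠ w' := fun h => h2 (by rw [h])
        have := ih w' (by simpa using h1) hne hw.tail hw'.tail
          (fun a ha => hm a (List.mem_cons_of_mem _ ha)) (fun a ha => hm' a (List.mem_cons_of_mem _ ha))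
          y z hy hy1 hz hz1 (fun v v' hv hv' => hS v v' (hv.trans (List.suffix_cons _ _))
            (hv'.trans (List.suffix_cons _ _)))
        have hP : Pos [b] := pos_single hw.head
        have e1 : phi (b :: w) y - phi (b :: w') z = phi [b] (phi w y) - phi [b] (phi w' z) := rfl
        rw [e1, phi_sub hP p1.1.le p2.1.le]
        have hmb : ∀ a ∈ [b], a ≤ m := fun a ha => by
          rw [List.mem_singleton.1 ha]; exact hm b List.mem_cons_self
        have d1 := D_ge_pow hP hmb (Ioo_subset_Icc_self p1)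
        have d2 := D_ge_pow hP hmb (Ioo_subset_Icc_self p2)
        rw [List.length_singleton, pow_one] at d1 d2
        have d3 := mul_le_mul d1 d2 (by positivity) (le_trans (by positivity) d1)
        rw [List.length_cons]
        calc (1 / ((m : ℝ) + 1)) ^ (2 * (w.length + 1)) * (1 / ((m : ℝ) + 2) ^ 3)
            = ((1 / ((m : ℝ) + 1)) ^ (2 * w.length) * (1 / ((m : ℝ) + 2) ^ 3)) *
              (1 / ((m : ℝ) + 1) * (1 / ((m : ℝ) + 1))) := by ring
          _ ≤ _ := mul_le_mul this d3 (by positivity) (abs_nonneg _)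
      · have := branch_sep hw'.head hbc (hm b List.mem_cons_self) p2.1.le hs.2 p1
        rw [phi_cons, phi_nil, phi_cons, phi_nil] at this
        rw [phi_cons, phi_cons, abs_sub_comm]
        refine le_trans ?_ (this.trans (le_abs_self _))
        exact mul_le_of_le_one_left (by positivity) hle

end Q261.CFD
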