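import Pool.Agent.Q261.CFD.Part2

set_option autoImplicit false

/-!
# The gap lemma
-/

namespace Q261.CFD

open Set Filter Topology MeasureTheory
open scoped ENNReal NNReal

lemma phi_mem_J {F : Set ℕ} {y : ℝ} (hy : y ∈ J F) {v : List ℕ} (hv : ∀ a ∈ v, a ∈ F)
    (hP : Pos v) : phi v y ∈ J F := by
  induction v with
  | nil => exact hy
  | cons a v ih =>
    have h1 := ih (fun b hb => hv b (List.mem_cons_of_mem _ hb)) hP.tail
    rw [phi_cons]
    refine ⟨phi_mem_Ioo hP hy.1, ?_, fun n => ?_⟩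
    · exact (h1.2.1.natCast_add a).inv
    · cases n with
      | zero =>
        refine ⟨a, hv a List.mem_cons_self, ?_⟩
        unfold digit
        exact (gauss_branch h1.1).2
      | succ n =>
        rw [digit_succ, (gauss_branch h1.1).1]
        exact h1.2.2 n

/-- **lower bound** by the partition function -/
theorem le_dimH_of_Y {A : Finset ℕ} {a : ℕ} (hA : ∀ b ∈ A, 1 ≤ b) (ha : 1 ≤ a) (haA : a ∉ A)
    (hA0 : A.Nonempty) {s : ℝ} (hs : 0 < s) {k : ℕ} (hk : 1 ≤ k)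
    (h : (4 : ℝ) ^ s ≤ Y A a 1 s k []) :
    ENNReal.ofReal s ≤ dimH (J ((insert a A : Finset ℕ) : Set ℕ)) := by
  have hF : ∀ b ∈ insert a A, 1 ≤ b := fun b hb => by
    rcases Finset.mem_insert.1 hb with hb | hb
    · rw [hb]; exact ha
    · exact hA b hb
  have hnt : Nontrivial (Fin k → {b // b ∈ insert a A}) := by
    obtain ⟨b, hb⟩ := hA0
    refine ⟨fun _ => ⟨a, Finset.mem_insert_self _ _⟩,
      fun _ => ⟨b, Finset.mem_insert_of_mem hb⟩, fun h1 => ?_⟩
    have := congrFun h1 ⟨0, hk⟩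
    rw [Subtype.mk.injEq] at this
    exact haA (this ▸ hb)
  have hmem : ∀ v : Fin k → {b // b ∈ insert a A}, ∀ b ∈ List.ofFn (fun i => (v i : ℕ)),
      b ∈ insert a A := by
    intro v b hb
    rw [List.mem_ofFn] at hb
    obtain ⟨i, rfl⟩ := hb
    exact (v i).2
  have hP : ∀ v : Fin k → {b // b ∈ insert a A}, Pos (List.ofFn fun i => (v i : ℕ)) :=
    fun v b hb => hF b (hmem v b hb)
  have hne : ∀ v : Fin k → {b // b ∈ insert a A}, (List.ofFn fun i => (v i : ℕ)) ≠ [] := by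
    intro v h0
    have := congrArg List.length h0
    simp at this
    omega
  refine le_dimH_of_blocks (V := Fin k → {b // b ∈ insert a A})
    (B := fun v => List.ofFn fun i => (v i : ℕ)) (ε := fun v => D (List.ofFn fun i => (v i : ℕ)) 0 / 2)
    hP hne (fun v => half_pos (D_pos (hP v) le_rfl)) (fun v x hx => D_ge_half (hP v) hx)
    (s := s.toNNReal) (Real.toNNReal_pos.2 hs) ?_ _ ?_
  · rw [Real.coe_toNNReal _ hs.le]
    have h1 : ∀ v : Fin k → {b // b ∈ insert a A},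
        (D (List.ofFn fun i => (v i : ℕ)) 0 / 2) ^ (2 * s) =
        D (List.ofFn fun i => (v i : ℕ)) 0 ^ (2 * s) * ((4 : ℝ) ^ s)⁻¹ := by
      intro v
      rw [Real.div_rpow (D_pos (hP v) le_rfl).le (by norm_num), div_eq_mul_inv]
      congr 2
      rw [Real.rpow_mul (by norm_num), Real.rpow_two]
      norm_num
    simp_rw [h1]
    rw [← Finset.sum_mul]
    have h2 := Y_eq haA s k []
    simp only [List.nil_append] at h2
    rw [h2, ← div_eq_mul_inv, one_le_div (by positivity)]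
    exact h
  · intro π hπ hrec
    have hJ : ∀ ω, π ω ∈ J ((insert a A : Finset ℕ) : Set ℕ) := fun ω =>
      code_mem_J (V := Fin k → {b // b ∈ insert a A})
        (B := fun v => List.ofFn fun i => (v i : ℕ)) hP hne hπ hrec
        (fun v b hb => Finset.mem_coe.2 (hmem v b hb)) ω
    set m := (insert a A).sup id with hm
    have hmle : ∀ b ∈ insert a A, b ≤ m := fun b hb => Finset.le_sup (f := id) hb
    have hmle' : ∀ b ∈ ((insert a A : Finset ℕ) : Set ℕ), b ≤ m := fun b hb =>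
      hmle b (Finset.mem_coe.1 hb)
    refine ⟨hJ, (1 / ((m : ℝ) + 1)) ^ (2 * k) * (1 / ((m : ℝ) + 2) ^ 3), by positivity, ?_⟩
    intro ω ω' hne'
    rw [hrec ω, hrec ω']
    have hw : (List.ofFn fun i => (ω 0 i : ℕ)) ≠ List.ofFn fun i => (ω' 0 i : ℕ) := by
      intro h0
      apply hne'
      have := List.ofFn_injective h0
      funext i
      exact Subtype.ext (congrFun this i)
    have := word_sep (m := m) _ _ (by simp) hw (hP (ω 0)) (hP (ω' 0))
      (fun b hb => hmle b (hmem _ b hb)) (fun b hb => hmle b (hmem _ b hb))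
      (π fun i => ω (i + 1)) (π fun i => ω' (i + 1)) (hπ _).1 (J_le hmle' (hJ _)).1 (hπ _).1
      (J_le hmle' (hJ _)).1 ?_
    · rw [List.length_ofFn] at this
      exact this
    · intro v v' hv hv'
      have hv1 : ∀ b ∈ v, b ∈ insert a A := fun b hb => hmem _ b (hv.subset hb)
      have hv2 : ∀ b ∈ v', b ∈ insert a A := fun b hb => hmem _ b (hv'.subset hb)
      exact ⟨(J_le hmle' (phi_mem_J (hJ _) (fun b hb => Finset.mem_coe.2 (hv1 b hb))
          fun b hb => hF b (hv1 b hb))).1,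
        (J_le hmle' (phi_mem_J (hJ _) (fun b hb => Finset.mem_coe.2 (hv2 b hb))
          fun b hb => hF b (hv2 b hb))).1⟩

lemma pos_nil : Pos ([] : List ℕ) := fun b hb => by simp at hb

/-- the partition functions of the finite set are bounded at exponents above the dimension -/
lemma Y_le_four {A : Finset ℕ} {a : ℕ} (hA : ∀ b ∈ A, 1 ≤ b) (ha : 1 ≤ a) (haA : a ∉ A)
    (hA0 : A.Nonempty) {s : ℝ} (hs : 0 < s)
    (hdim : dimH (J ((insert a A : Finset ℕ) : Set ℕ)) ≤ ENNReal.ofReal s) (k : ℕ) :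
    Y A a 1 s k [] ≤ (4 : ℝ) ^ s := by
  by_contra! hlt
  rcases Nat.eq_zero_or_pos k with rfl | hk
  · rw [Y_zero, D_nil, Real.one_rpow] at hlt
    exact absurd hlt (not_lt.2 (Real.one_le_rpow (by norm_num) hs.le))
  have hc : Continuous fun t : ℝ => Y A a 1 t k [] - (4 : ℝ) ^ t :=
    ((Y_cont hA ha k pos_nil).comp (continuous_const.prodMk continuous_id)).sub
      (Real.continuous_const_rpow (by norm_num))
  have h1 : ∀ᶠ t in 𝓝[>] s, 0 < Y A a 1 t k [] - (4 : ℝ) ^ t :=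
    (hc.continuousAt.eventually (lt_mem_nhds (sub_pos.2 hlt))).filter_mono nhdsWithin_le_nhds
  obtain ⟨t, ht, hst⟩ := (h1.and self_mem_nhdsWithin).exists
  have h2 := le_dimH_of_Y hA ha haA hA0 (hs.trans hst) hk (by linarith)
  have h3 := (ENNReal.ofReal_le_ofReal_iff hs.le).1 (h2.trans hdim)
  exact absurd hst (not_lt.2 h3)

/-- words with one letter `a`, at least -/
lemma Y_ge_sum {A : Finset ℕ} {a : ℕ} (hA : ∀ b ∈ A, 1 ≤ b) (ha : 1 ≤ a) {s : ℝ} (hs : 0 ≤ s)
    (h1 : ∀ k, 1 ≤ Y A a 1 s k []) (k : ℕ) {u : List ℕ} (hu : Pos u) :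
    ((1 : ℝ) / (4 * a)) ^ (2 * s) * ∑ l ∈ Finset.range k, Y A a 0 s l u ≤ Y A a 1 s k u := by
  have ha' : (1 : ℝ) ≤ a := by exact_mod_cast ha
  induction k generalizing u with
  | zero =>
    simp only [Finset.range_zero, Finset.sum_empty, mul_zero]
    exact Y_nonneg hA ha zero_le_one 0 hu
  | succ k ih =>
    rw [Finset.sum_range_succ', mul_add, Y_succ, one_mul]
    refine add_le_add ?_ ?_
    · have h2 : ∀ l ∈ Finset.range k, Y A a 0 s (l + 1) u = ∑ b ∈ A, Y A a 0 s l (u ++ [b]) := by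
        intro l _
        rw [Y_succ, zero_mul, add_zero]
      rw [Finset.sum_congr rfl h2, Finset.sum_comm, Finset.mul_sum]
      exact Finset.sum_le_sum fun b hb => ih (hu.append (pos_single (hA b hb)))
    · rw [Y_zero]
      have h3 := Y_app_ge (s := s) hA ha zero_le_one hs k (hu.append (pos_single ha)) pos_nil
      rw [List.append_nil] at h3
      have h4 : D u 0 / 2 * (a : ℝ)⁻¹ ≤ D (u ++ [a]) 0 := by
        have := D_app_ge hu (pos_single ha)
        rwa [D_single, add_zero] at this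
      have h5 := D_pos hu (x := 0) le_rfl
      have h6 : 1 / (4 * (a : ℝ)) * D u 0 ≤ D (u ++ [a]) 0 / 2 := by
        have : 1 / (4 * (a : ℝ)) * D u 0 = D u 0 / 2 * (a : ℝ)⁻¹ / 2 := by
          field_simp
          norm_num
        rw [this]
        linarith
      calc ((1 : ℝ) / (4 * a)) ^ (2 * s) * D u 0 ^ (2 * s)
          = (1 / (4 * (a : ℝ)) * D u 0) ^ (2 * s) := (Real.mul_rpow (by positivity) h5.le).symm
        _ ≤ (D (u ++ [a]) 0 / 2) ^ (2 * s) :=
            Real.rpow_le_rpow (by positivity) h6 (by positivity)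
        _ ≤ (D (u ++ [a]) 0 / 2) ^ (2 * s) * Y A a 1 s k [] :=
            le_mul_of_one_le_right (Real.rpow_nonneg (le_trans (by positivity) h6) _) (h1 k)
        _ ≤ _ := h3

/-- the partition function of the smaller set decays -/
lemma exists_Y_lt_one {A : Finset ℕ} {a : ℕ} (hA : ∀ b ∈ A, 1 ≤ b) (ha : 1 ≤ a) (haA : a ∉ A)
    (hA0 : A.Nonempty) {s : ℝ} (hs : 0 < s)
    (hdim : dimH (J ((insert a A : Finset ℕ) : Set ℕ)) ≤ ENNReal.ofReal s) :
    ∃ k, Y A a 0 s k [] < 1 := by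
  by_contra! h
  have h1 : ∀ k, 1 ≤ Y A a 1 s k [] := fun k =>
    (h k).trans (Y_mono hA ha le_rfl zero_le_one k pos_nil)
  set c : ℝ := ((1 : ℝ) / (4 * a)) ^ (2 * s) with hc
  have hc0 : 0 < c := by
    have : (0 : ℝ) < a := by exact_mod_cast ha
    positivity
  obtain ⟨k, hk⟩ := exists_nat_gt ((4 : ℝ) ^ s / c)
  have h2 := Y_ge_sum hA ha hs.le h1 k pos_nil
  have h3 : (k : ℝ) ≤ ∑ l ∈ Finset.range k, Y A a 0 s l [] := by
    calc (k : ℝ) = ∑ _l ∈ Finset.range k, (1 : ℝ) := by simp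
      _ ≤ _ := Finset.sum_le_sum fun l _ => h l
  have h4 := Y_le_four hA ha haA hA0 hs hdim k
  have h5 : (4 : ℝ) ^ s < c * k := by rwa [div_lt_iff₀' hc0] at hk
  have h6 := mul_le_mul_of_nonneg_left h3 hc0.le
  linarith

/-- the partition function with a weight less than one decays -/
lemma exists_Yρ_lt_one {A : Finset ℕ} {a : ℕ} (hA : ∀ b ∈ A, 1 ≤ b) (ha : 1 ≤ a) (haA : a ∉ A)
    (hA0 : A.Nonempty) {s : ℝ} (hs : 0 < s)
    (hdim : dimH (J ((insert a A : Finset ℕ) : Set ℕ)) ≤ ENNReal.ofReal s) {ρ : ℝ} (hρ : 0 < ρ)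
    (hρ1 : ρ < 1) : ∃ k, 1 ≤ k ∧ Y A a ρ s k [] < 1 := by
  obtain ⟨k₀, hk₀⟩ := exists_Y_lt_one hA ha haA hA0 hs hdim
  have hk₀' : 1 ≤ k₀ := by
    rcases Nat.eq_zero_or_pos k₀ with rfl | h
    · rw [Y_zero, D_nil, Real.one_rpow] at hk₀
      exact absurd hk₀ (lt_irrefl _)
    · exact h
  -- a small positive weight
  have hc : Continuous fun r : ℝ => Y A a r s k₀ [] :=
    (Y_cont hA ha k₀ pos_nil).comp (continuous_id.prodMk continuous_const)
  have h1 : ∀ᶠ r in 𝓝[>] (0 : ℝ), Y A a r s k₀ [] < 1 :=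
    (hc.continuousAt.eventually (gt_mem_nhds hk₀)).filter_mono nhdsWithin_le_nhds
  have h2 : ∀ᶠ r in 𝓝[>] (0 : ℝ), r < ρ :=
    (gt_mem_nhds hρ).filter_mono nhdsWithin_le_nhds
  obtain ⟨r, ⟨hr1, hr2⟩, hr0⟩ := ((h1.and h2).and self_mem_nhdsWithin).exists
  have hr0 : 0 < r := hr0
  -- the power `M`
  have h3 : Tendsto (fun M : ℕ => ρ ^ M * (4 : ℝ) ^ s) atTop (𝓝 (0 * (4 : ℝ) ^ s)) :=
    (tendsto_pow_atTop_nhds_zero_of_lt_one hρ.le hρ1).mul_const _
  rw [zero_mul] at h3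
  obtain ⟨M, hM⟩ := (h3.eventually (gt_mem_nhds (show (0 : ℝ) < 1 / 2 by norm_num))).exists
  -- the power `m`
  have hY0 := Y_nonneg (s := s) hA ha hr0.le k₀ pos_nil
  have h4 : Tendsto (fun m : ℕ => (ρ / r) ^ M * Y A a r s k₀ [] ^ m) atTop
      (𝓝 ((ρ / r) ^ M * 0)) :=
    (tendsto_pow_atTop_nhds_zero_of_lt_one hY0 hr1).const_mul _
  rw [mul_zero] at h4
  obtain ⟨m, hm, hm1⟩ := ((h4.eventually (gt_mem_nhds (show (0 : ℝ) < 1 / 2 by norm_num))).and
    (eventually_ge_atTop 1)).exists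
  refine ⟨k₀ * m, Nat.mul_pos hk₀' hm1, ?_⟩
  have h5 := Y_split (s := s) hA ha hr0 hr2.le hρ1.le M (k₀ * m) pos_nil
  have h6 := Y_pow (s := s) hA ha hr0.le hs.le k₀ m
  have h7 := Y_le_four hA ha haA hA0 hs hdim (k₀ * m)
  have h8 : 0 ≤ (ρ / r) ^ M := by positivity
  have h9 : 0 ≤ ρ ^ M := by positivity
  nlinarith [mul_le_mul_of_nonneg_left h6 h8, mul_le_mul_of_nonneg_left h7 h9]

end Q261.CFD
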