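import Pool.Agent.Q261.CFD.OnesBlocks

set_option autoImplicit false

/-!
# Digits which are `q`-th powers: gaps in the dimension spectrum
-/

namespace Q261.CFD

open Set Filter Topology MeasureTheory
open scoped ENNReal NNReal

lemma coe_inv_rpow {m : ℕ} (hm : 1 ≤ m) (q : ℕ) {r : ℝ} (hr : 0 ≤ r) :
    (((((m ^ q : ℕ) : ℝ≥0))⁻¹ : ℝ≥0) : ℝ≥0∞) ^ r = ENNReal.ofReal ((m : ℝ) ^ (-((q : ℝ) * r))) := by
  rw [← ENNReal.coe_rpow_of_nonneg _ hr, ENNReal.ofReal]
  congr 1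
  ext
  rw [Real.coe_toNNReal _ (by positivity), NNReal.coe_rpow, NNReal.coe_inv]
  push_cast
  rw [Real.rpow_neg (by positivity), Real.rpow_mul (by positivity), Real.rpow_natCast,
    Real.inv_rpow (by positivity)]

lemma sum_sq_le (c : ℕ) (hc : 2 ≤ c) (n : ℕ) :
    ∑ i ∈ Finset.range n, ((((c + i : ℕ) : ℝ)) ^ 2)⁻¹ ≤ 1 / ((c : ℝ) - 1) - 1 / ((c : ℝ) + n - 1) := by
  have hc' : (2 : ℝ) ≤ c := by exact_mod_cast hc
  induction n with
  | zero => simp
  | succ n ih =>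
    rw [Finset.sum_range_succ]
    push_cast at *
    have h1 : (0 : ℝ) ≤ n := n.cast_nonneg
    have h2 : (((c : ℝ) + n) ^ 2)⁻¹ ≤ 1 / ((c : ℝ) + n - 1) - 1 / ((c : ℝ) + (n + 1) - 1) := by
      have h3 : (0 : ℝ) < (c : ℝ) + n - 1 := by linarith
      have h4 : (c : ℝ) + (n + 1) - 1 = c + n := by ring
      have h5 : (0 : ℝ) < (c : ℝ) + n := by linarith
      rw [h4, div_sub_div _ _ h3.ne' h5.ne', inv_eq_one_div, div_le_div_iff₀ (by positivity)
        (by positivity)]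
      nlinarith
    linarith

/-- tail sums -/
lemma tsum_pow_le {c : ℕ} (hc : 2 ≤ c) (q : ℕ) {s : ℝ} (hs : 0 ≤ s) (h : 2 ≤ 2 * q * s) :
    (∑' i : ℕ, (((((c + i) ^ q : ℕ) : ℝ≥0)⁻¹ : ℝ≥0) : ℝ≥0∞) ^ (2 * s)) ≤
      ENNReal.ofReal ((c : ℝ) ^ (2 - 2 * q * s)) := by
  have hc' : (2 : ℝ) ≤ c := by exact_mod_cast hc
  refine ENNReal.tsum_le_of_sum_range_le fun n => ?_
  have h1 : ∀ i ∈ Finset.range n, (((((c + i) ^ q : ℕ) : ℝ≥0)⁻¹ : ℝ≥0) : ℝ≥0∞) ^ (2 * s) =
      ENNReal.ofReal (((c + i : ℕ) : ℝ) ^ (-((q : ℝ) * (2 * s)))) := fun i _ =>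
    coe_inv_rpow (by omega) q (by positivity)
  rw [Finset.sum_congr rfl h1, ← ENNReal.ofReal_sum_of_nonneg (fun i _ => by positivity)]
  apply ENNReal.ofReal_le_ofReal
  have h2 : ∀ i ∈ Finset.range n, (((c + i : ℕ) : ℝ) ^ (-((q : ℝ) * (2 * s)))) ≤
      (c : ℝ) ^ (2 - 2 * q * s) * ((((c + i : ℕ) : ℝ)) ^ 2)⁻¹ := by
    intro i _
    have h3 : (0 : ℝ) < ((c + i : ℕ) : ℝ) := by
      have : 0 < c + i := by omega
      exact_mod_cast this
    have h4 : (c : ℝ) ≤ ((c + i : ℕ) : ℝ) := by exact_mod_cast Nat.le_add_right c i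
    have h5 : ((c + i : ℕ) : ℝ) ^ (-((q : ℝ) * (2 * s))) =
        ((c + i : ℕ) : ℝ) ^ (2 - 2 * q * s) * ((((c + i : ℕ) : ℝ)) ^ 2)⁻¹ := by
      have : -((q : ℝ) * (2 * s)) = (2 - 2 * q * s) + (-2 : ℝ) := by ring
      rw [this, Real.rpow_add h3, Real.rpow_neg h3.le]
      congr 2
      exact Real.rpow_two _
    rw [h5]
    refine mul_le_mul_of_nonneg_right ?_ (by positivity)
    exact Real.rpow_le_rpow_of_nonpos (by linarith) h4 (by linarith)
  refine (Finset.sum_le_sum h2).trans ?_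
  rw [← Finset.mul_sum]
  have h6 := sum_sq_le c hc n
  have h7 : (0 : ℝ) ≤ n := n.cast_nonneg
  have h8 : 1 / ((c : ℝ) - 1) ≤ 1 := by
    rw [div_le_one (by linarith)]; linarith
  have h9 : 0 ≤ 1 / ((c : ℝ) + n - 1) := by
    apply div_nonneg (by norm_num); linarith
  calc (c : ℝ) ^ (2 - 2 * q * s) * ∑ i ∈ Finset.range n, ((((c + i : ℕ) : ℝ)) ^ 2)⁻¹
      ≤ (c : ℝ) ^ (2 - 2 * q * s) * 1 :=
        mul_le_mul_of_nonneg_left (by linarith) (by positivity)
    _ = _ := mul_one _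

/-- the geometric sum of the blocks of ones -/
lemma tsum_ones_le {s : ℝ} (hs : 0 < s) (hs1 : s ≤ 1) :
    (∑' j : ℕ, ((2 * (3 / 4) ^ j : ℝ≥0) : ℝ≥0∞) ^ (2 * s)) ≤ ENNReal.ofReal (10 / s) := by
  refine ENNReal.tsum_le_of_sum_range_le fun n => ?_
  have h1 : ∀ i ∈ Finset.range n, ((2 * (3 / 4) ^ i : ℝ≥0) : ℝ≥0∞) ^ (2 * s) =
      ENNReal.ofReal ((4 : ℝ) ^ s * ((9 / 16 : ℝ) ^ s) ^ i) := by
    intro i _
    rw [← ENNReal.coe_rpow_of_nonneg _ (by positivity), ENNReal.ofReal]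
    congr 1
    ext
    rw [Real.coe_toNNReal _ (by positivity), NNReal.coe_rpow]
    push_cast
    have e1 : (4 : ℝ) ^ s = 2 ^ (2 * s) := by
      rw [Real.rpow_mul (by norm_num), Real.rpow_two]; norm_num
    have e2 : (9 / 16 : ℝ) ^ s = (3 / 4) ^ (2 * s) := by
      rw [Real.rpow_mul (by norm_num), Real.rpow_two]; norm_num
    rw [Real.mul_rpow (by norm_num) (by positivity), e1, e2]
    congr 1
    rw [← Real.rpow_natCast, ← Real.rpow_natCast, ← Real.rpow_mul (by norm_num),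
      ← Real.rpow_mul (by norm_num), mul_comm]
  rw [Finset.sum_congr rfl h1, ← ENNReal.ofReal_sum_of_nonneg (fun i _ => by positivity)]
  apply ENNReal.ofReal_le_ofReal
  rw [← Finset.mul_sum]
  have h2 : (4 : ℝ) ^ s ≤ 4 := by
    calc (4 : ℝ) ^ s ≤ 4 ^ (1 : ℝ) := Real.rpow_le_rpow_of_exponent_le (by norm_num) hs1
      _ = 4 := Real.rpow_one _
  have h3 : (9 / 16 : ℝ) ^ s ≤ 1 - 7 * s / 16 := by
    have := _root_.rpow_one_add_le_one_add_mul_self (s := -(7 / 16 : ℝ)) (by norm_num) hs.le hs1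
    calc (9 / 16 : ℝ) ^ s = (1 + -(7 / 16 : ℝ)) ^ s := by norm_num
      _ ≤ 1 + s * -(7 / 16) := this
      _ = _ := by ring
  have h4 : (0 : ℝ) ≤ (9 / 16 : ℝ) ^ s := by positivity
  have h5 : (9 / 16 : ℝ) ^ s < 1 := by linarith
  have h6 : ∑ i ∈ Finset.range n, ((9 / 16 : ℝ) ^ s) ^ i ≤ (1 - (9 / 16 : ℝ) ^ s)⁻¹ := by
    rw [← tsum_geometric_of_lt_one h4 h5]
    exact (summable_geometric_of_lt_one h4 h5).sum_le_tsum _ (fun i _ => by positivity)
  have h7 : (1 - (9 / 16 : ℝ) ^ s)⁻¹ ≤ (7 * s / 16)⁻¹ := by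
    apply inv_anti₀ (by positivity); linarith
  have h8 : 0 ≤ ∑ i ∈ Finset.range n, ((9 / 16 : ℝ) ^ s) ^ i := by positivity
  calc (4 : ℝ) ^ s * ∑ i ∈ Finset.range n, ((9 / 16 : ℝ) ^ s) ^ i
      ≤ 4 * (7 * s / 16)⁻¹ := mul_le_mul h2 (h6.trans h7) h8 (by norm_num)
    _ ≤ 10 / s := by
        rw [inv_div, mul_div_assoc', div_le_div_iff₀ (by positivity) hs]
        nlinarith

/-- the sum in the lower bound -/
lemma sum_ones_ge {t : ℝ} (ht : 0 < t) (ht1 : t ≤ 1 / 8) :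
    ∃ k : ℕ, 2 ≤ k ∧ 1 / (16 * t) ≤ ∑ j ∈ Finset.range k, ((1 / 2 : ℝ) ^ (j + 1)) ^ (2 * t) := by
  refine ⟨⌊1 / (4 * t)⌋₊, ?_, ?_⟩
  · apply Nat.le_floor
    push_cast
    rw [le_div_iff₀ (by positivity)]
    linarith
  · set k := ⌊1 / (4 * t)⌋₊ with hk
    have hk1 : (k : ℝ) ≤ 1 / (4 * t) := Nat.floor_le (by positivity)
    have hk2 : 1 / (4 * t) < k + 1 := Nat.lt_floor_add_one _
    have hk3 : 2 ≤ 1 / (4 * t) := by rw [le_div_iff₀ (by positivity)]; linarith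
    have h1 : ∀ j ∈ Finset.range k, (1 / 2 : ℝ) ≤ ((1 / 2 : ℝ) ^ (j + 1)) ^ (2 * t) := by
      intro j hj
      have hj' : ((j + 1 : ℕ) : ℝ) ≤ k := by exact_mod_cast Finset.mem_range.1 hj
      rw [← Real.rpow_natCast, ← Real.rpow_mul (by norm_num)]
      calc (1 / 2 : ℝ) = (1 / 2 : ℝ) ^ (1 : ℝ) := (Real.rpow_one _).symm
        _ ≤ (1 / 2 : ℝ) ^ (((j + 1 : ℕ) : ℝ) * (2 * t)) := by
            apply Real.rpow_le_rpow_of_exponent_ge (by norm_num) (by norm_num)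
            have : ((j + 1 : ℕ) : ℝ) ≤ 1 / (4 * t) := hj'.trans hk1
            rw [le_div_iff₀ (by positivity)] at this
            linarith
    calc 1 / (16 * t) ≤ (k : ℝ) * (1 / 2) := by
          have : 1 / (16 * t) = 1 / (4 * t) * (1 / 4) := by field_simp; norm_num
          rw [this]
          linarith
      _ = ∑ _j ∈ Finset.range k, (1 / 2 : ℝ) := by simp
      _ ≤ _ := Finset.sum_le_sum h1

/-- the lower bound for the pairs `{1, m ^ q}` -/
lemma le_dimH_pair {m q : ℕ} (hm : 2 ≤ m) (hq : 2 ≤ q) {t : ℝ≥0} (ht : 0 < t) (ht1 : (t : ℝ) ≤ 1 / 8)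
    (h : 16 * (t : ℝ) ≤ (m : ℝ) ^ (-((q : ℝ) * (2 * t)))) : (t : ℝ≥0∞) ≤ dimH (J {1, m ^ q}) := by
  have hm' : (2 : ℝ) ≤ m := by exact_mod_cast hm
  obtain ⟨k, hk, hk'⟩ := sum_ones_ge (t := t) (by exact_mod_cast ht) ht1
  have ha : 3 ≤ m ^ q := by
    calc 3 ≤ 2 ^ 2 := by norm_num
      _ ≤ m ^ 2 := Nat.pow_le_pow_left hm 2
      _ ≤ m ^ q := Nat.pow_le_pow_right (by omega) hq
  refine le_dimH_one_a ha ht hk ?_
  have h1 : ∀ j ∈ Finset.range k, ((1 / 2 : ℝ) ^ (j + 1) / ((m ^ q : ℕ) : ℝ)) ^ (2 * (t : ℝ)) =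
      ((1 / 2 : ℝ) ^ (j + 1)) ^ (2 * (t : ℝ)) * (m : ℝ) ^ (-((q : ℝ) * (2 * t))) := by
    intro j _
    rw [Real.div_rpow (by positivity) (by positivity), div_eq_mul_inv]
    congr 1
    push_cast
    rw [Real.rpow_neg (by positivity), Real.rpow_mul (x := (m : ℝ)) (y := (q : ℝ)) (by positivity),
      Real.rpow_natCast]
  rw [Finset.sum_congr rfl h1, ← Finset.sum_mul]
  have ht' : (0 : ℝ) < t := by exact_mod_cast ht
  calc (1 : ℝ) = 1 / (16 * (t : ℝ)) * (16 * t) := by field_simp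
    _ ≤ _ := mul_le_mul hk' h (by positivity) (le_trans (by positivity) hk')

/-- the upper bound -/
lemma dimH_le_of_no {n q : ℕ} (hn : 2 ≤ n) {t : ℝ≥0} (ht : 0 < t) (ht1 : (t : ℝ) ≤ 1)
    (h2 : 2 < 2 * q * (t : ℝ)) (h : 10 / (t : ℝ) * ((n : ℝ) + 1) ^ (2 - 2 * q * (t : ℝ)) < 1)
    {F : Set ℕ} (hF : ∀ a ∈ F, ∃ m : ℕ, 1 ≤ m ∧ a = m ^ q)
    (hF' : 1 ∉ F ∨ ∀ m, 2 ≤ m → m ≤ n → m ^ q ∉ F) : dimH (J F) ≤ t := by
  have ht' : (0 : ℝ) < t := by exact_mod_cast ht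
  rcases hF' with h1 | h1
  · refine dimH_J_le (fun i => (2 + i) ^ q) (fun i => Nat.one_le_pow _ _ (by omega)) ?_ ht ?_
    · intro a ha
      obtain ⟨m, hm, rfl⟩ := hF a ha
      refine ⟨m - 2, ?_⟩
      have : m ≠ 1 := fun h3 => by
        rw [h3, one_pow] at ha
        exact h1 ha
      congr 1
      omega
    · refine (tsum_pow_le (c := 2) le_rfl q ht'.le h2.le).trans_lt ?_
      rw [ENNReal.ofReal_lt_one]
      push_cast
      exact Real.rpow_lt_one_of_one_lt_of_neg (by norm_num) (by linarith)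
  · refine dimH_J_le_ones (fun i => (n + 1 + i) ^ q) (fun i => Nat.one_le_pow _ _ (by omega)) ?_ ht ?_
    · intro a ha
      obtain ⟨m, hm, rfl⟩ := hF a ha
      rcases Nat.lt_or_ge m 2 with h3 | h3
      · left
        have : m = 1 := by omega
        rw [this, one_pow]
      · right
        refine ⟨m - (n + 1), ?_⟩
        have : ¬ m ≤ n := fun h4 => h1 m h3 h4 ha
        congr 1
        omega
    · have h3 := tsum_ones_le ht' ht1
      have h4 := tsum_pow_le (c := n + 1) (by omega) q ht'.le h2.le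
      refine (mul_le_mul' h3 h4).trans_lt ?_
      rw [← ENNReal.ofReal_mul (by positivity), ENNReal.ofReal_lt_one]
      push_cast
      exact h

/-- **gaps**: for all large `q` there is a gap in the spectrum separating the sets that contain
`1` and one of `2 ^ q, ..., n ^ q` from all the other ones -/
theorem gap (n : ℕ) (hn : 2 ≤ n) : ∀ᶠ q : ℕ in atTop, ∃ u v : ℝ≥0, u < v ∧
    (∀ m, 2 ≤ m → m ≤ n → (v : ℝ≥0∞) ≤ dimH (J {1, m ^ q})) ∧
    (∀ F : Set ℕ, (∀ a ∈ F, ∃ m : ℕ, 1 ≤ m ∧ a = m ^ q) →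
      (1 ∉ F ∨ ∀ m, 2 ≤ m → m ≤ n → m ^ q ∉ F) → dimH (J F) ≤ u) := by
  have hn' : (2 : ℝ) ≤ n := by exact_mod_cast hn
  set x1 : ℝ := n + 1 / 3 with hx1
  set x2 : ℝ := n + 2 / 3 with hx2
  have l0 : 0 < Real.log n := Real.log_pos (by linarith)
  have l1 : Real.log n < Real.log x1 := Real.log_lt_log (by linarith) (by linarith)
  have l2 : Real.log x1 < Real.log x2 := Real.log_lt_log (by linarith) (by linarith)
  have l3 : Real.log x2 < Real.log (n + 1) := Real.log_lt_log (by linarith) (by linarith)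
  set α : ℝ := Real.log n / Real.log x1 with hα
  set β : ℝ := Real.log (n + 1) / Real.log x2 with hβ
  have hα1 : α < 1 := by rw [hα, div_lt_one (l0.trans l1)]; exact l1
  have hβ1 : 1 < β := by rw [hβ, one_lt_div (by linarith)]; exact l3
  -- the three asymptotic facts, for a real variable
  have A1 : ∀ᶠ y : ℝ in atTop, Real.log y ≤ (Real.log x1 / 4) * y := by
    have h1 := Real.isLittleO_log_id_atTop.bound (show 0 < Real.log x1 / 4 by linarith)
    filter_upwards [h1, eventually_ge_atTop (1 : ℝ)] with y hy hy1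
    rw [Real.norm_of_nonneg (Real.log_nonneg hy1), id, Real.norm_of_nonneg (by linarith)] at hy
    exact hy
  have A2 : ∀ᶠ y : ℝ in atTop, Real.log y ≤ (Real.log x1 / 8) * y ^ (1 - α) := by
    have h1 := (isLittleO_log_rpow_atTop (r := 1 - α) (by linarith)).bound
      (show 0 < Real.log x1 / 8 by linarith)
    filter_upwards [h1, eventually_ge_atTop (1 : ℝ)] with y hy hy1
    rw [Real.norm_of_nonneg (Real.log_nonneg hy1), Real.norm_of_nonneg (by positivity)] at hy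
    exact hy
  have A3 : ∀ᶠ y : ℝ in atTop, 20 * Real.log x2 * ((n : ℝ) + 1) ^ 2 * y ^ (1 - β) < 1 := by
    have h1 : Tendsto (fun y : ℝ => 20 * Real.log x2 * ((n : ℝ) + 1) ^ 2 * y ^ (1 - β)) atTop
        (𝓝 (20 * Real.log x2 * ((n : ℝ) + 1) ^ 2 * 0)) := by
      apply Tendsto.const_mul
      have := tendsto_rpow_neg_atTop (y := β - 1) (by linarith)
      rwa [neg_sub] at this
    rw [mul_zero] at h1
    exact h1.eventually (gt_mem_nhds one_pos)
  have A4 : ∀ᶠ y : ℝ in atTop, 2 * Real.log x2 + 1 < Real.log y :=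
    Real.tendsto_log_atTop.eventually_gt_atTop _
  have cast := tendsto_natCast_atTop_atTop (R := ℝ)
  filter_upwards [cast.eventually A1, cast.eventually A2, cast.eventually A3, cast.eventually A4,
    eventually_ge_atTop 3] with q a1 a2 a3 a4 hq
  have hq' : (3 : ℝ) ≤ q := by exact_mod_cast hq
  have hq0 : (0 : ℝ) < q := by linarith
  have lq : 1 < Real.log q := by linarith
  -- the two exponents
  set v : ℝ := Real.log q / (2 * q * Real.log x1) with hv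
  set u : ℝ := Real.log q / (2 * q * Real.log x2) with hu
  have hx10 : 0 < Real.log x1 := by linarith
  have hx20 : 0 < Real.log x2 := by linarith
  have v0 : 0 < v := by positivity
  have u0 : 0 < u := by positivity
  have huv : u < v := by
    rw [hu, hv]
    apply div_lt_div_of_pos_left (by linarith) (by positivity)
    exact mul_lt_mul_of_pos_left l2 (by positivity)
  have hv8 : v ≤ 1 / 8 := by
    rw [hv, div_le_iff₀ (by positivity)]
    linarith
  have hqv : (q : ℝ) * (2 * v) = Real.log q / Real.log x1 := by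
    rw [hv]; field_simp
  have hqu : 2 * (q : ℝ) * u = Real.log q / Real.log x2 := by
    rw [hu]; field_simp
  refine ⟨⟨u, u0.le⟩, ⟨v, v0.le⟩, huv, ?_, ?_⟩
  · intro m hm hmn
    refine le_dimH_pair hm (by omega) (t := ⟨v, v0.le⟩) v0 hv8 ?_
    change 16 * v ≤ (m : ℝ) ^ (-((q : ℝ) * (2 * v)))
    have hm' : (2 : ℝ) ≤ m := by exact_mod_cast hm
    have hmn' : (m : ℝ) ≤ n := by exact_mod_cast hmn
    have h1 : (n : ℝ) ^ (-((q : ℝ) * (2 * v))) ≤ (m : ℝ) ^ (-((q : ℝ) * (2 * v))) :=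
      Real.rpow_le_rpow_of_nonpos (by linarith) hmn' (by rw [neg_nonpos]; positivity)
    refine le_trans ?_ h1
    have h2 : (n : ℝ) ^ (-((q : ℝ) * (2 * v))) = (q : ℝ) ^ (-α) := by
      rw [Real.rpow_def_of_pos (by linarith), Real.rpow_def_of_pos hq0, hqv, hα]
      congr 1
      ring
    have h3 : (q : ℝ) ^ (1 - α) = q * (q : ℝ) ^ (-α) := by
      rw [sub_eq_add_neg, Real.rpow_add hq0, Real.rpow_one]
    rw [h2, hv]
    rw [h3] at a2
    rw [← mul_div_assoc, div_le_iff₀ (by positivity)]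
    nlinarith
  · intro F hF hF'
    refine dimH_le_of_no hn (t := ⟨u, u0.le⟩) u0 (by change u ≤ 1; linarith) ?_ ?_ hF hF'
    · change 2 < 2 * (q : ℝ) * u
      rw [hqu, lt_div_iff₀ hx20]
      linarith
    · change 10 / u * ((n : ℝ) + 1) ^ (2 - 2 * (q : ℝ) * u) < 1
      have h2 : ((n : ℝ) + 1) ^ (2 - 2 * (q : ℝ) * u) = ((n : ℝ) + 1) ^ 2 * (q : ℝ) ^ (-β) := by
        rw [sub_eq_add_neg, Real.rpow_add (by linarith)]
        congr 1
        · exact Real.rpow_two _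
        · rw [Real.rpow_def_of_pos (by linarith), Real.rpow_def_of_pos hq0, hqu, hβ]
          congr 1
          ring
      have h3 : (q : ℝ) ^ (1 - β) = q * (q : ℝ) ^ (-β) := by
        rw [sub_eq_add_neg, Real.rpow_add hq0, Real.rpow_one]
      have h4 : 10 / u = 20 * q * Real.log x2 / Real.log q := by
        rw [hu]; field_simp; norm_num
      rw [h2, h4]
      rw [h3] at a3
      have h5 : 20 * q * Real.log x2 / Real.log q * (((n : ℝ) + 1) ^ 2 * (q : ℝ) ^ (-β)) =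
          20 * Real.log x2 * ((n : ℝ) + 1) ^ 2 * (q * (q : ℝ) ^ (-β)) / Real.log q := by ring
      rw [h5, div_lt_one (by linarith)]
      linarith

end Q261.CFD
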