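import Pool.Agent.Q261.CFD.Basic

set_option autoImplicit false

/-!
# Continued fractions: upper bounds for the Hausdorff dimension by covers with blocks of digits
-/

namespace Q261.CFD

open Set Filter Topology MeasureTheory
open scoped ENNReal NNReal

variable {V : Type}

/-- the cylinder of a tuple of blocks -/
noncomputable def cyl (B : V → List ℕ) : ∀ m : ℕ, (Fin m → V) → Set ℝ
  | 0, _ => Icc 0 1
  | m + 1, f => phi (B (f 0)) '' cyl B m (Fin.tail f)

lemma cyl_sub {B : V → List ℕ} (hB : ∀ v, Pos (B v)) (hB' : ∀ v, B v ≠ []) (m : ℕ)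
    (f : Fin m → V) : ∃ w : List ℕ, Pos w ∧ m ≤ w.length ∧ cyl B m f ⊆ phi w '' Icc 0 1 := by
  induction m with
  | zero =>
    refine ⟨[], fun a ha => by simp at ha, by simp, ?_⟩
    intro x hx
    exact ⟨x, hx, rfl⟩
  | succ m ih =>
    obtain ⟨w, h1, h2, h3⟩ := ih (Fin.tail f)
    refine ⟨B (f 0) ++ w, (hB _).append h1, ?_, ?_⟩
    · rw [List.length_append]
      have : 0 < (B (f 0)).length := List.length_pos_iff.2 (hB' _)
      omega
    · rintro x ⟨y, hy, rfl⟩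
      obtain ⟨z, hz, rfl⟩ := h3 hy
      exact ⟨z, hz, phi_append _ _ _⟩

lemma cyl_unit {B : V → List ℕ} (hB : ∀ v, Pos (B v)) (hB' : ∀ v, B v ≠ []) (m : ℕ)
    (f : Fin m → V) : cyl B m f ⊆ Icc 0 1 := by
  obtain ⟨w, h1, -, h3⟩ := cyl_sub hB hB' m f
  intro x hx
  obtain ⟨z, hz, rfl⟩ := h3 hx
  exact phi_mem h1 hz

lemma cyl_dist {B : V → List ℕ} (hB : ∀ v, Pos (B v)) (hB' : ∀ v, B v ≠ []) {δ : V → ℝ≥0}
    (hδ : ∀ v, ∀ x ∈ Icc (0 : ℝ) 1, D (B v) x ≤ δ v) (m : ℕ) (f : Fin m → V) {x y : ℝ}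
    (hx : x ∈ cyl B m f) (hy : y ∈ cyl B m f) : |x - y| ≤ ((∏ i, δ (f i) ^ 2 : ℝ≥0) : ℝ) := by
  induction m generalizing x y with
  | zero =>
    simp only [cyl] at hx hy
    simp only [Finset.univ_eq_empty, Finset.prod_empty, NNReal.coe_one]
    rw [abs_le]; constructor <;> linarith [hx.1, hx.2, hy.1, hy.2]
  | succ m ih =>
    obtain ⟨x', hx', rfl⟩ := hx
    obtain ⟨y', hy', rfl⟩ := hy
    have h1 := cyl_unit hB hB' m _ hx'
    have h2 := cyl_unit hB hB' m _ hy'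
    have h3 := ih (Fin.tail f) hx' hy'
    rw [phi_sub (hB _) h1.1 h2.1, Fin.prod_univ_succ]
    have h4 := hδ (f 0) x' h1
    have h5 := hδ (f 0) y' h2
    have h6 := D_pos (hB (f 0)) h1.1
    have h7 := D_pos (hB (f 0)) h2.1
    push_cast
    push_cast at h3
    have h8 : D (B (f 0)) x' * D (B (f 0)) y' ≤ (δ (f 0) : ℝ) ^ 2 := by
      rw [sq]; exact mul_le_mul h4 h5 h7.le (by positivity)
    rw [mul_comm]
    exact mul_le_mul h8 h3 (abs_nonneg _) (by positivity)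

lemma tsum_pow (g : V → ℝ≥0∞) (m : ℕ) :
    ∑' f : Fin m → V, ∏ i, g (f i) = (∑' v, g v) ^ m := by
  induction m with
  | zero => simp
  | succ m ih =>
    rw [← (Fin.consEquiv (fun _ : Fin (m + 1) => V)).tsum_eq, ENNReal.tsum_prod']
    simp only [Fin.consEquiv_apply, Fin.prod_univ_succ, Fin.cons_zero, Fin.cons_succ]
    simp only [ENNReal.tsum_mul_left]
    rw [ih, ENNReal.tsum_mul_right, pow_succ, mul_comm]

/-- **upper bound for the dimension**: if every point of `S` is the image of a point of `S` under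
the branch of a block, and the sum of the `(2 s)`-th powers of the factors is less than one, then
`dim S ≤ s` -/
theorem dimH_le_of_blocks [Countable V] (B : V → List ℕ) (hB : ∀ v, Pos (B v))
    (hB' : ∀ v, B v ≠ []) (δ : V → ℝ≥0) (hδ : ∀ v, ∀ x ∈ Icc (0 : ℝ) 1, D (B v) x ≤ δ v)
    (s : ℝ≥0) (hs : 0 < s) (hsum : ∑' v, (δ v : ℝ≥0∞) ^ (2 * (s : ℝ)) < 1)
    (S : Set ℝ) (hS0 : S ⊆ Icc 0 1) (hS : ∀ x ∈ S, ∃ v, ∃ y ∈ S, x = phi (B v) y) :
    dimH S ≤ s := by
  have hs' : (0 : ℝ) < s := by exact_mod_cast hs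
  -- covers
  have hcov : ∀ m : ℕ, S ⊆ ⋃ f : Fin m → V, cyl B m f := by
    intro m
    induction m with
    | zero =>
      intro x hx
      exact mem_iUnion.2 ⟨fun i => i.elim0, hS0 hx⟩
    | succ m ih =>
      intro x hx
      obtain ⟨v, y, hy, rfl⟩ := hS x hx
      obtain ⟨f, hf⟩ := mem_iUnion.1 (ih hy)
      refine mem_iUnion.2 ⟨Fin.cons v f, ?_⟩
      simp only [cyl, Fin.cons_zero, Fin.tail_cons]
      exact ⟨y, hf, rfl⟩
  have hdiam : ∀ (m : ℕ) (f : Fin m → V), Metric.ediam (cyl B m f) ≤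
      ENNReal.ofReal (2 * (1 / 2 : ℝ) ^ m) := by
    intro m f
    obtain ⟨w, h1, h2, h3⟩ := cyl_sub hB hB' m f
    apply Metric.ediam_le
    intro x hx y hy
    obtain ⟨x', hx', rfl⟩ := h3 hx
    obtain ⟨y', hy', rfl⟩ := h3 hy
    rw [edist_dist, Real.dist_eq]
    apply ENNReal.ofReal_le_ofReal
    refine (phi_dist_le h1 hx' hy').trans ?_
    have := pow_le_pow_of_le_one (a := (1 / 2 : ℝ)) (by norm_num) (by norm_num) h2
    linarith
  have hdiam2 : ∀ (m : ℕ) (f : Fin m → V), Metric.ediam (cyl B m f) ^ (s : ℝ) ≤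
      ∏ i, (δ (f i) : ℝ≥0∞) ^ (2 * (s : ℝ)) := by
    intro m f
    have h1 : Metric.ediam (cyl B m f) ≤ ((∏ i, δ (f i) ^ 2 : ℝ≥0) : ℝ≥0∞) := by
      apply Metric.ediam_le
      intro x hx y hy
      rw [edist_dist, Real.dist_eq, ← ENNReal.ofReal_coe_nnreal]
      exact ENNReal.ofReal_le_ofReal (cyl_dist hB hB' hδ m f hx hy)
    refine (ENNReal.rpow_le_rpow h1 hs'.le).trans ?_
    rw [ENNReal.ofNNReal_finsetProd, ← ENNReal.prod_rpow_of_nonneg hs'.le]
    apply le_of_eq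
    refine Finset.prod_congr rfl fun i _ => ?_
    rw [ENNReal.coe_pow, ← ENNReal.rpow_natCast, ← ENNReal.rpow_mul]
    norm_num
  have hmeas : μH[(s : ℝ)] S ≤ 0 := by
    have h1 := Measure.hausdorffMeasure_le_liminf_tsum (β := ℕ) (ι := fun m => Fin m → V) (s : ℝ) S
      (l := atTop) (fun m => ENNReal.ofReal (2 * (1 / 2 : ℝ) ^ m)) ?_ (fun m f => cyl B m f)
      (Eventually.of_forall fun m f => hdiam m f) (Eventually.of_forall fun m => hcov m)
    · refine h1.trans ?_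
      have h2 : Tendsto (fun m : ℕ => (∑' v, (δ v : ℝ≥0∞) ^ (2 * (s : ℝ))) ^ m) atTop (𝓝 0) :=
        ENNReal.tendsto_pow_atTop_nhds_zero_of_lt_one hsum
      rw [← h2.liminf_eq]
      refine liminf_le_liminf (Eventually.of_forall fun m => ?_) (by isBoundedDefault)
        (by isBoundedDefault)
      show ∑' f : Fin m → V, Metric.ediam (cyl B m f) ^ (s : ℝ) ≤ _
      rw [← tsum_pow]
      exact ENNReal.tsum_le_tsum fun f => hdiam2 m f
    · rw [show (0 : ℝ≥0∞) = ENNReal.ofReal (2 * 0) by simp]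
      apply ENNReal.tendsto_ofReal
      exact (tendsto_pow_atTop_nhds_zero_of_lt_one (by norm_num) (by norm_num)).const_mul 2
  apply dimH_le_of_hausdorffMeasure_ne_top
  rw [nonpos_iff_eq_zero.1 hmeas]
  exact ENNReal.zero_ne_top

end Q261.CFD
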